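import Pool.Agent.Run7.h893.GH.Rt
import Pool.Agent.Y118.HX.Hod

/-!
# Hodge bases of the fibres
-/

set_option autoImplicit false
set_option linter.unusedSectionVars false

open Matrix

namespace Run7.h893.GH

/-- generalised inverses -/
theorem gen_inv {n q : ℕ} (M : Matrix (Fin n) (Fin q) ℚ) : ∃ N : Matrix (Fin q) (Fin n) ℚ, M * N * M = M := by
  set f := Matrix.toLin' M with hf
  obtain ⟨g₀, hg₀⟩ := f.rangeRestrict.exists_rightInverse_of_surjective (LinearMap.range_rangeRestrict f)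
  obtain ⟨q', hq'⟩ := Submodule.exists_isCompl (LinearMap.range f)
  let π := Submodule.projectionOnto _ _ hq'
  have hπ : ∀ x, π (f x) = f.rangeRestrict x := by
    intro x
    have h1 : f x = ((f.rangeRestrict x : LinearMap.range f) : Fin n → ℚ) := rfl
    rw [h1]
    exact Submodule.projectionOnto_apply_left hq' _
  refine ⟨LinearMap.toMatrix' (g₀.comp π), ?_⟩
  apply Matrix.toLin'.injective
  rw [Matrix.toLin'_mul, Matrix.toLin'_mul, Matrix.toLin'_toMatrix', ← hf]
  refine LinearMap.ext fun x => ?_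
  simp only [LinearMap.comp_apply]
  rw [hπ]
  have h2 := LinearMap.congr_fun hg₀ (f.rangeRestrict x)
  rw [LinearMap.comp_apply, LinearMap.id_apply] at h2
  have h3 := congrArg (fun z : LinearMap.range f => (z : Fin n → ℚ)) h2
  exact h3

/-- the kernel of a rational matrix is spanned by rational vectors -/
theorem ker_span {n q : ℕ} (M : Matrix (Fin n) (Fin q) ℚ) (x : Fin n → ℂ) (hx : x ᵥ* (M.map fun a => (a : ℂ)) = 0) :
    x ∈ Submodule.span ℂ {v | ∃ u : Fin n → ℚ, v = cv u ∧ u ᵥ* M = 0} := by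
  obtain ⟨N, hN⟩ := gen_inv M
  have h1 : x = x ᵥ* cq (1 - M * N) := by
    have h2 : cq (1 - M * N) = 1 - (M.map fun a => (a : ℂ)) * (N.map fun a => (a : ℂ)) := by
      rw [cq_sub, cq_one]
      congr 1
      ext i j
      simp [cq, mul_apply]
    rw [h2, vecMul_sub, vecMul_one, ← vecMul_vecMul, hx, zero_vecMul, sub_zero]
  rw [h1, vecMul_eq_sum]
  refine Submodule.sum_mem _ fun i _ => Submodule.smul_mem _ _ (Submodule.subset_span ⟨(1 - M * N : Matrix (Fin n) (Fin n) ℚ) i, rfl, ?_⟩)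
  have h3 : (1 - M * N) * M = 0 := by rw [Matrix.sub_mul, Matrix.one_mul, hN, sub_self]
  exact congrFun h3 i

/-- the filtration given by vectors `v_i`: their spans and the orthogonal complements -/
def Fb (n : ℕ) (v : ℕ → Fin n → ℂ) (A : Matrix (Fin n) (Fin n) ℚ) (p : ℕ) : Submodule ℂ (Fin n → ℂ) :=
  if n ≤ 2 * p then Submodule.span ℂ {x | ∃ i : ℕ, i + p < n ∧ x = v i}
  else
    { carrier := {x | ∀ j, j < p → x ⬝ᵥ (cq A *ᵥ v j) = 0}
      add_mem' := fun {a b} ha hb j hj => by rw [add_dotProduct, ha j hj, hb j hj, add_zero]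
      zero_mem' := fun j _ => zero_dotProduct _
      smul_mem' := fun c a ha j hj => by rw [smul_dotProduct, ha j hj, smul_zero] }

variable {n : ℕ} {v : ℕ → Fin n → ℂ} {A : Matrix (Fin n) (Fin n) ℚ}

theorem Fb_hi {p : ℕ} (hp : n ≤ 2 * p) : Fb n v A p = Submodule.span ℂ {x | ∃ i : ℕ, i + p < n ∧ x = v i} := by
  unfold Fb
  rw [if_pos hp]

theorem mem_Fb_lo {p : ℕ} (hp : 2 * p < n) {x : Fin n → ℂ} : x ∈ Fb n v A p ↔ ∀ j, j < p → x ⬝ᵥ (cq A *ᵥ v j) = 0 := by
  unfold Fb
  rw [if_neg (by omega)]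
  rfl

/-- the filtration is a polarised Hodge structure (without the positivity) -/
structure Pol (n : ℕ) (A : Matrix (Fin n) (Fin n) ℚ) (F : ℕ → Submodule ℂ (Fin n → ℂ)) : Prop where
  anti : ∀ p, F (p + 1) ≤ F p
  opp : ∀ p ≤ n, ∀ v ∈ F p, star v ∈ F (n - p) → v = 0
  orth : ∀ p q, n ≤ p + q → ∀ v ∈ F p, ∀ w ∈ F q, v ⬝ᵥ (cq A *ᵥ w) = 0

/-- the Hodge basis of a fibre -/
structure HB (n : ℕ) (A : Matrix (Fin n) (Fin n) ℚ) (F : ℕ → Submodule ℂ (Fin n → ℂ)) (P E : Matrix (Fin n) (Fin n) ℂ)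
    (r γ : Fin n → ℂ) : Prop where
  det : E.det ≠ 0
  mem : ∀ a : Fin n, E a ∈ F (n - 1 - a)
  smem : ∀ a : Fin n, star (E a) ∈ F a
  span : ∀ p, F p ≤ Submodule.span ℂ {x | ∃ a : Fin n, (a : ℕ) + p < n ∧ x = E a}
  conj : ∀ a : Fin n, star (E a) = r a • E a.rev
  r0 : ∀ a, r a ≠ 0
  form : E * cq A * Eᵀ = Ga Fin.rev γ
  γ0 : ∀ a, γ a ≠ 0
  rat : ∀ p, F p ≤ Submodule.span ℂ {x | ∃ u : Fin n → ℚ, x = cv u ᵥ* P ∧ cv u ᵥ* P ∈ F p}

theorem cv_mulVec {q : ℕ} (M : Matrix (Fin n) (Fin q) ℚ) (u : Fin n → ℚ) :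
    cv u ᵥ* (M.map fun a => (a : ℂ)) = fun j => ((u ᵥ* M) j : ℂ) := by
  funext j
  simp [cv, vecMul, dotProduct]

theorem exists_HB {P : Matrix (Fin n) (Fin n) ℂ} {D BI : Matrix (Fin n) (Fin n) ℚ} {κ : ℂ} (hn : 1 ≤ n) (hP : P.det ≠ 0)
    (hD : D.det ≠ 0) (hA : A.det ≠ 0) (hκ : κ ≠ 0) (hPA : P * cq A * Pᵀ = κ • cq BI)
    (hv : ∀ i : Fin n, 2 * (i : ℕ) + 1 < n → v i = (cq D * P) i) (hF : Pol n A (Fb n v A)) :
    ∃ (E : Matrix (Fin n) (Fin n) ℂ) (r γ : Fin n → ℂ), HB n A (Fb n v A) P E r γ := by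
  have hPu : IsUnit P.det := isUnit_iff_ne_zero.2 hP
  have hAu : IsUnit (cq A).det := isUnit_iff_ne_zero.2 (cq_det hA)
  have hanti : ∀ p q, p ≤ q → Fb n v A q ≤ Fb n v A p := by
    intro p q hpq
    induction hpq with
    | refl => exact le_refl _
    | step h ih => exact (hF.anti _).trans ih
  have hZdet : IsUnit (cq D * P) := by
    rw [Matrix.isUnit_iff_isUnit_det, det_mul]
    exact (isUnit_iff_ne_zero.2 (cq_det hD)).mul hPu
  have hli : LinearIndependent ℂ (cq D * P).row := Matrix.linearIndependent_rows_iff_isUnit.2 hZdet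
  have hdim : ∀ p ≤ n, n - p ≤ Module.finrank ℂ (Fb n v A p) := by
    intro p hp
    by_cases h : n ≤ 2 * p
    · rw [Fb_hi h]
      have h2 := hli.comp (fun i : Fin (n - p) => (⟨i, by have := i.2; omega⟩ : Fin n)) fun a b h => by
        have h4 := congrArg (fun z : Fin n => (z : ℕ)) h
        exact Fin.ext h4
      have h3 := finrank_span_eq_card h2
      rw [Fintype.card_fin] at h3
      rw [← h3]
      refine Submodule.finrank_mono (Submodule.span_mono ?_)
      rintro _ ⟨i, rfl⟩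
      refine ⟨i, by have := i.2; omega, ?_⟩
      exact (hv ⟨i, by have := i.2; omega⟩ (by have := i.2; simp only; omega)).symm
    · let f : (Fin n → ℂ) →ₗ[ℂ] (Fin p → ℂ) :=
        { toFun := fun x j => x ⬝ᵥ (cq A *ᵥ v j)
          map_add' := fun a b => by
            funext j
            rw [add_dotProduct]
            rfl
          map_smul' := fun c a => by
            funext j
            rw [smul_dotProduct]
            rfl }
      have h1 : Fb n v A p = LinearMap.ker f := by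
        ext x
        rw [mem_Fb_lo (by omega), LinearMap.mem_ker]
        constructor
        · intro h2
          funext j
          exact h2 j j.2
        · intro h2 j hj
          exact congrFun h2 ⟨j, hj⟩
      rw [h1]
      have h2 := LinearMap.finrank_range_add_finrank_ker f
      rw [Module.finrank_fin_fun] at h2
      have h3 := Submodule.finrank_le (LinearMap.range f)
      rw [Module.finrank_fin_fun] at h3
      omega
  have hopp : ∀ p ≤ n, Fb n v A p ⊓ Pool.Agent.Y118.HX.cj (Fb n v A (n - p)) = ⊥ := by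
    intro p hp
    rw [eq_bot_iff]
    intro x hx
    rw [Submodule.mem_inf, Pool.Agent.Y118.HX.mem_cj] at hx
    rw [Submodule.mem_bot]
    exact hF.opp p hp x hx.1 hx.2
  obtain ⟨w, hw1, hw2, hw3, hw4, hw5⟩ := Pool.Agent.Y118.HX.hodge_basis (Fb n v A) hanti hdim hopp
  have hconj : ∀ a : Fin n, ∃ c : ℂ, star (w a) = c • w a.rev := by
    intro a
    have ha := a.2
    refine hw5 a.rev _ ?_ ?_
    · have h4 : n - 1 - (a.rev : ℕ) = a := by
        rw [Fin.val_rev]
        omega
      rw [h4]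
      exact hw3 a
    · rw [star_star]
      have h4 : (a.rev : ℕ) = n - 1 - a := by
        rw [Fin.val_rev]
        omega
      rw [h4]
      exact hw2 a
  choose r hr using hconj
  have hw0 : ∀ a, w a ≠ 0 := fun a => hw1.ne_zero a
  have hr0 : ∀ a, r a ≠ 0 := by
    intro a h0
    have h1 := hr a
    rw [h0, zero_smul, star_eq_zero] at h1
    exact hw0 a h1
  set E : Matrix (Fin n) (Fin n) ℂ := Matrix.of w with hE
  have hEu : IsUnit E := Matrix.linearIndependent_rows_iff_isUnit.1 hw1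
  have hEdet : IsUnit E.det := (Matrix.isUnit_iff_isUnit_det _).1 hEu
  have hent : ∀ a b, (E * cq A * Eᵀ) a b = w a ⬝ᵥ (cq A *ᵥ w b) := by
    intro a b
    rw [dotProduct_mulVec]
    rfl
  have hup : ∀ a b : Fin n, (a : ℕ) + b < n - 1 → w a ⬝ᵥ (cq A *ᵥ w b) = 0 := by
    intro a b hab
    have ha := a.2
    have hb := b.2
    exact hF.orth (n - 1 - a) (n - 1 - b) (by omega) _ (hw2 a) _ (hw2 b)
  have hz : ∀ a b : Fin n, b ≠ a.rev → w a ⬝ᵥ (cq A *ᵥ w b) = 0 := by
    intro a b hab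
    have ha := a.2
    have hb := b.2
    have h1 : (a : ℕ) + b ≠ n - 1 := by
      intro h
      apply hab
      apply Fin.ext
      rw [Fin.val_rev]
      omega
    rcases lt_or_gt_of_ne h1 with h | h
    · exact hup a b h
    · have h2 := hup a.rev b.rev (by rw [Fin.val_rev, Fin.val_rev]; omega)
      have h3 : star (w a ⬝ᵥ (cq A *ᵥ w b)) = star (w a) ⬝ᵥ (cq A *ᵥ star (w b)) := by
        simp only [dotProduct, mulVec, star_sum, star_mul', Pi.star_apply]
        refine Finset.sum_congr rfl fun i _ => ?_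
        congr 1
        refine Finset.sum_congr rfl fun j _ => ?_
        congr 1
        simp [cq]
      rw [hr, hr, smul_dotProduct, mulVec_smul, dotProduct_smul, h2, smul_zero, smul_zero, star_eq_zero] at h3
      exact h3
  set γ : Fin n → ℂ := fun a => w a ⬝ᵥ (cq A *ᵥ w a.rev) with hγ
  have hform : E * cq A * Eᵀ = Ga Fin.rev γ := by
    ext a b
    rw [hent]
    unfold Ga
    rw [of_apply]
    by_cases hb : b = a.rev
    · rw [if_pos hb, hb]
    · rw [if_neg hb, hz a b hb]
  refine ⟨E, r, γ, hEdet.ne_zero, hw2, hw3, fun p => ?_, hr, hr0, hform, fun a h0 => ?_, fun p => ?_⟩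
  · by_cases hp : p < n
    · have h1 := hw4 ⟨n - 1 - p, by omega⟩
      have h2 : n - 1 - ((⟨n - 1 - p, by omega⟩ : Fin n) : ℕ) = p := by
        simp only
        omega
      rw [h2] at h1
      rw [h1]
      refine Submodule.span_mono ?_
      rintro _ ⟨j, hj, rfl⟩
      refine ⟨j, ?_, rfl⟩
      rw [Fin.le_def] at hj
      simp only at hj
      omega
    · rw [Fb_hi (by omega)]
      refine Submodule.span_le.2 ?_
      rintro _ ⟨i, hi, rfl⟩
      omega
  · have h1 : (E * cq A * Eᵀ).det ≠ 0 := by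
      rw [det_mul, det_mul, det_transpose]
      exact mul_ne_zero (mul_ne_zero hEdet.ne_zero hAu.ne_zero) hEdet.ne_zero
    apply h1
    rw [hform]
    refine det_eq_zero_of_row_eq_zero a fun b => ?_
    unfold Ga
    rw [of_apply]
    split_ifs
    · exact h0
    · rfl
  · by_cases hp : n ≤ 2 * p
    · conv_lhs => rw [Fb_hi hp]
      refine Submodule.span_mono ?_
      rintro _ ⟨i, hi, rfl⟩
      have h1 : cv (D ⟨i, by omega⟩) ᵥ* P = v i := by
        have h2 := hv ⟨i, by omega⟩ (by simp only; omega)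
        rw [show v i = (cq D * P) ⟨i, by omega⟩ from h2]
        rfl
      refine ⟨D ⟨i, by omega⟩, h1.symm, ?_⟩
      rw [h1, Fb_hi hp]
      exact Submodule.subset_span ⟨i, hi, rfl⟩
    · have hp' : 2 * p < n := by omega
      intro x hx
      rw [mem_Fb_lo hp'] at hx
      -- the rational matrix
      let M : Matrix (Fin n) (Fin p) ℚ := Matrix.of fun a j => (BI * Dᵀ) a ⟨j, by have := j.2; omega⟩
      have hM : ∀ (y : Fin n → ℂ) (j : Fin p), (y ᵥ* P) ⬝ᵥ (cq A *ᵥ v j) = κ * (y ᵥ* (M.map fun a => (a : ℂ))) j := by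
        intro y j
        have hj := j.2
        have h1 : v j = (cq D * P) ⟨j, by omega⟩ := hv ⟨j, by omega⟩ (by simp only; omega)
        have h2 : cq A *ᵥ v j = fun a => (cq A * (cq D * P)ᵀ) a ⟨j, by omega⟩ := by
          rw [h1]
          rfl
        have h3 : (y ᵥ* P) ⬝ᵥ (fun a => (cq A * (cq D * P)ᵀ) a ⟨j, by omega⟩) =
            (y ᵥ* (P * (cq A * (cq D * P)ᵀ))) ⟨j, by omega⟩ := by
          rw [← vecMul_vecMul]
          rfl
        have h4 : P * (cq A * (cq D * P)ᵀ) = κ • cq (BI * Dᵀ) := by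
          rw [transpose_mul, cq_mul]
          calc P * (cq A * (Pᵀ * (cq D)ᵀ)) = (P * cq A * Pᵀ) * (cq D)ᵀ := by simp only [Matrix.mul_assoc]
            _ = _ := by
              rw [hPA, Matrix.smul_mul]
              rfl
        rw [h2, h3, h4, vecMul_smul, Pi.smul_apply, smul_eq_mul]
        rfl
      set y := x ᵥ* P⁻¹ with hy
      have hxy : x = y ᵥ* P := by
        rw [hy, vecMul_vecMul, nonsing_inv_mul _ hPu, vecMul_one]
      have hy0 : y ᵥ* (M.map fun a => (a : ℂ)) = 0 := by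
        funext j
        have h1 := hx j j.2
        rw [hxy, hM y j] at h1
        exact (mul_eq_zero.1 h1).resolve_left hκ
      have h5 := ker_span M y hy0
      have h6 := Submodule.mem_map_of_mem (f := Matrix.vecMulLinear P) h5
      rw [Submodule.map_span] at h6
      have h7 : (Matrix.vecMulLinear P) y = x := by
        rw [Matrix.vecMulLinear_apply, ← hxy]
      rw [h7] at h6
      refine Submodule.span_mono ?_ h6
      rintro _ ⟨_, ⟨u, rfl, hu⟩, rfl⟩
      refine ⟨u, by rw [Matrix.vecMulLinear_apply], ?_⟩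
      rw [mem_Fb_lo hp']
      intro j hj
      have h8 := hM (cv u) ⟨j, hj⟩
      rw [h8, cv_mulVec, hu]
      simp

end Run7.h893.GH
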