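import Pool.Agent.Run7.h893.GH.Pl

/-!
# Rational Lie algebras which contain the Hodge operator are normalised by the group
-/

set_option autoImplicit false
set_option linter.unusedSectionVars false

open Matrix

namespace Run7.h893.GH

variable {ι : Type} [Fintype ι] [DecidableEq ι]

/-- a rational matrix as a complex matrix -/
def cq (M : Matrix ι ι ℚ) : Matrix ι ι ℂ := M.map fun x => (x : ℂ)

/-- a rational vector as a complex vector -/
def cv (v : ι → ℚ) : ι → ℂ := fun x => (v x : ℂ)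

theorem cq_add (M N : Matrix ι ι ℚ) : cq (M + N) = cq M + cq N := by
  ext i j
  simp [cq]

theorem cq_smul (c : ℚ) (M : Matrix ι ι ℚ) : cq (c • M) = (c : ℂ) • cq M := by
  ext i j
  simp [cq]

theorem cq_mul (M N : Matrix ι ι ℚ) : cq (M * N) = cq M * cq N := by
  ext i j
  simp [cq, mul_apply]

theorem cq_sub (M N : Matrix ι ι ℚ) : cq (M - N) = cq M - cq N := by
  ext i j
  simp [cq]

theorem cq_zero : cq (0 : Matrix ι ι ℚ) = 0 := by
  ext i j
  simp [cq]

theorem cq_one : cq (1 : Matrix ι ι ℚ) = 1 := by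
  ext i j
  simp [cq, one_apply, apply_ite]

theorem cq_star (M : Matrix ι ι ℚ) : (cq M).map star = cq M := by
  ext i j
  simp [cq]

theorem cq_det {M : Matrix ι ι ℚ} (h : M.det ≠ 0) : (cq M).det ≠ 0 := by
  have h1 : (cq M).det = ((M.det : ℚ) : ℂ) := by
    unfold cq
    have := (RingHom.map_det (Rat.castHom ℂ) M)
    rw [show ((M.det : ℚ) : ℂ) = (Rat.castHom ℂ) M.det from rfl, this]
    rfl
  rw [h1]
  exact_mod_cast h

theorem map_star_mul (M N : Matrix ι ι ℂ) : (M * N).map star = M.map star * N.map star := by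
  ext a b
  simp only [map_apply, mul_apply, star_sum, star_mul']

/-- rational independence implies complex independence -/
theorem li_cq {s : ℕ} {X : Fin s → Matrix ι ι ℚ} (hX : LinearIndependent ℚ X) : LinearIndependent ℂ fun i => cq (X i) := by
  classical
  have hdual : ∃ φ : Fin s → (Matrix ι ι ℚ →ₗ[ℚ] ℚ), ∀ l i, φ l (X i) = if l = i then 1 else 0 := by
    let b := Module.Basis.span hX
    obtain ⟨q, hq⟩ := Submodule.exists_isCompl (Submodule.span ℚ (Set.range X))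
    let π := Submodule.projectionOnto _ _ hq
    refine ⟨fun l => (b.coord l).comp π, fun l i => ?_⟩
    rw [LinearMap.comp_apply]
    have h1 : X i = ((b i : Submodule.span ℚ (Set.range X)) : Matrix ι ι ℚ) := by
      rw [Module.Basis.span_apply hX i]
    have h2 : π (X i) = b i := by
      rw [h1]
      exact Submodule.projectionOnto_apply_left hq _
    rw [h2, Module.Basis.coord_apply, Module.Basis.repr_self, Finsupp.single_apply]
    simp only [eq_comm]
  obtain ⟨φ, hφ⟩ := hdual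
  have hval : ∀ l (M : Matrix ι ι ℚ), φ l M = ∑ a, ∑ b, φ l (Matrix.single a b 1) * M a b := by
    intro l M
    have h1 : M = ∑ i, ∑ j, M i j • Matrix.single i j (1 : ℚ) := by
      conv_lhs => rw [matrix_eq_sum_single M]
      refine Finset.sum_congr rfl fun i _ => Finset.sum_congr rfl fun j _ => ?_
      rw [smul_single, smul_eq_mul, mul_one]
    conv_lhs => rw [h1]
    rw [map_sum]
    simp only [map_sum, map_smul, smul_eq_mul]
    refine Finset.sum_congr rfl fun i _ => Finset.sum_congr rfl fun j _ => ?_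
    ring
  rw [Fintype.linearIndependent_iff]
  intro c hc l
  have h1 : ∑ a, ∑ b, ((φ l (Matrix.single a b 1) : ℚ) : ℂ) * (∑ i, c i • cq (X i)) a b = 0 := by
    rw [hc]
    simp
  have h2 : ∑ a, ∑ b, ((φ l (Matrix.single a b 1) : ℚ) : ℂ) * (∑ i, c i • cq (X i)) a b =
      ∑ i, c i * ((φ l (X i) : ℚ) : ℂ) := by
    simp only [Matrix.sum_apply, Matrix.smul_apply, smul_eq_mul, Finset.mul_sum, hval l (X _)]
    push_cast
    simp only [Finset.mul_sum]
    have e1 : ∀ a : ι, ∑ b : ι, ∑ i : Fin s, ((φ l (Matrix.single a b 1) : ℚ) : ℂ) * (c i * cq (X i) a b) =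
        ∑ i : Fin s, ∑ b : ι, ((φ l (Matrix.single a b 1) : ℚ) : ℂ) * (c i * cq (X i) a b) := fun a => Finset.sum_comm
    simp only [e1]
    rw [Finset.sum_comm]
    refine Finset.sum_congr rfl fun i _ => Finset.sum_congr rfl fun a _ => Finset.sum_congr rfl fun b _ => ?_
    unfold cq
    rw [map_apply]
    ring
  rw [h2] at h1
  have h3 : ∑ i, c i * ((φ l (X i) : ℚ) : ℂ) = c l := by
    rw [Finset.sum_eq_single l]
    · rw [hφ, if_pos rfl]
      simp
    · intro i _ hi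
      rw [hφ, if_neg hi.symm]
      simp
    · intro h
      exact absurd (Finset.mem_univ _) h
  rw [← h3]
  exact h1

/-- the bilinear map `(v, w) ↦ A wᵀ v` -/
noncomputable def Zb (A : Matrix ι ι ℚ) : (ι → ℂ) →ₗ[ℂ] (ι → ℂ) →ₗ[ℂ] Matrix ι ι ℂ :=
  LinearMap.mk₂ ℂ (fun v w => vecMulVec (cq A *ᵥ w) v)
    (fun a b c => by
      ext i j
      simp only [vecMulVec_apply, Matrix.add_apply, Pi.add_apply]
      ring)
    (fun c a b => by
      ext i j
      simp only [vecMulVec_apply, Matrix.smul_apply, Pi.smul_apply, smul_eq_mul]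
      ring)
    (fun a b c => by
      ext i j
      simp only [vecMulVec_apply, Matrix.add_apply, mulVec_add, Pi.add_apply]
      ring)
    (fun c a b => by
      ext i j
      simp only [vecMulVec_apply, Matrix.smul_apply, mulVec_smul, Pi.smul_apply, smul_eq_mul]
      ring)

theorem Zb_apply (A : Matrix ι ι ℚ) (v w : ι → ℂ) : Zb A v w = vecMulVec (cq A *ᵥ w) v := rfl

theorem Zb_trace (A : Matrix ι ι ℚ) (v w : ι → ℂ) (X : Matrix ι ι ℂ) : trace (Zb A v w * X) = v ⬝ᵥ ((X * cq A) *ᵥ w) := by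
  rw [Zb_apply, vecMulVec_mul, trace_vecMulVec, dotProduct_comm, ← dotProduct_mulVec, mulVec_mulVec]

/-- the data of a Hodge basis -/
structure HD (A : Matrix ι ι ℚ) (E P : Matrix ι ι ℂ) (ht : ι → ℤ) (rev : ι → ι) (r : ι → ℂ) (𝓤 : ℤ → Set (ι → ℚ)) :
    Prop where
  Edet : E.det ≠ 0
  Adet : A.det ≠ 0
  hrev : ∀ x, ht (rev x) = -ht x
  conj : ∀ x, (fun y => star (E x y)) = r x • E (rev x)
  skew : diagonal (fun x => (ht x : ℂ)) * (E * cq A * Eᵀ) + (E * cq A * Eᵀ) * diagonal (fun x => (ht x : ℂ)) = 0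
  gen : ∀ x, E x ∈ Submodule.span ℂ {v | ∃ U ∈ 𝓤 (ht x), v = cv U ᵥ* P}
  fil : ∀ q, ∀ U ∈ 𝓤 q, cv U ᵥ* P ∈ Submodule.span ℂ {v | ∃ x, q ≤ ht x ∧ v = E x}

/-- the relations between the periods are invariant -/
def Rel (A : Matrix ι ι ℚ) (P : Matrix ι ι ℂ) (G : Set (Matrix ι ι ℂ)) : Prop :=
  ∀ s : ℕ, s ≤ Fintype.card ι * Fintype.card ι → ∀ (X : Fin s → Matrix ι ι ℚ) (U U' : Fin s → ι → ℚ),
    det (Matrix.of fun j i => (cv (U j) ᵥ* P) ⬝ᵥ ((cq (X i) * cq A) *ᵥ (cv (U' j) ᵥ* P))) = 0 →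
    ∀ g ∈ G, det (Matrix.of fun j i => (cv (U j) ᵥ* P ᵥ* g) ⬝ᵥ ((cq (X i) * cq A) *ᵥ (cv (U' j) ᵥ* P ᵥ* g))) = 0

section

variable {A : Matrix ι ι ℚ} {E P : Matrix ι ι ℂ} {ht : ι → ℤ} {rev : ι → ι} {r : ι → ℂ} {𝓤 : ℤ → Set (ι → ℚ)}

/-- the Hodge operator -/
noncomputable def hop (E : Matrix ι ι ℂ) (ht : ι → ℤ) : Matrix ι ι ℂ := E⁻¹ * diagonal (fun x => (ht x : ℂ)) * E

/-- the functionals of weight `c` -/
def Sc (A : Matrix ι ι ℚ) (E : Matrix ι ι ℂ) (ht : ι → ℤ) (c : ℤ) : Set (Matrix ι ι ℂ) :=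
  {Z | ∃ x y, ht x + ht y = c ∧ Z = Zb A (E x) (E y)}

/-- the functionals of level `c` -/
def Tq (A : Matrix ι ι ℚ) (P : Matrix ι ι ℂ) (𝓤 : ℤ → Set (ι → ℚ)) (c : ℤ) : Set (Matrix ι ι ℂ) :=
  {Z | ∃ a b, a + b = c ∧ ∃ U ∈ 𝓤 a, ∃ U' ∈ 𝓤 b, Z = Zb A (cv U ᵥ* P) (cv U' ᵥ* P)}

theorem HD.unit (h : HD A E P ht rev r 𝓤) : IsUnit E.det := isUnit_iff_ne_zero.2 h.Edet

theorem HD.row (h : HD A E P ht rev r 𝓤) (x : ι) : E x ᵥ* hop E ht = (ht x : ℂ) • E x := by
  have h1 : E * hop E ht = diagonal (fun x => (ht x : ℂ)) * E := by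
    unfold hop
    rw [← Matrix.mul_assoc, ← Matrix.mul_assoc, mul_nonsing_inv _ h.unit, Matrix.one_mul]
  have h2 := congrFun h1 x
  funext y
  have h3 := congrFun h2 y
  rw [diagonal_mul] at h3
  rw [Pi.smul_apply, smul_eq_mul, ← h3]
  rfl

theorem ext_rows {E X Y : Matrix ι ι ℂ} (hE : IsUnit E.det) (h : ∀ x, E x ᵥ* X = E x ᵥ* Y) : X = Y := by
  have h1 : E * X = E * Y := by
    ext x y
    exact congrFun (h x) y
  have h2 := congrArg (fun Z => E⁻¹ * Z) h1
  simp only [← Matrix.mul_assoc, nonsing_inv_mul _ hE, Matrix.one_mul] at h2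
  exact h2

theorem vm_star (v : ι → ℂ) (M : Matrix ι ι ℂ) : (fun y => star (v y)) ᵥ* M.map star = fun y => star ((v ᵥ* M) y) := by
  funext y
  simp only [vecMul, dotProduct, star_sum, star_mul', map_apply]

theorem HD.hstar (h : HD A E P ht rev r 𝓤) (hr : ∀ x, r x ≠ 0) (hrr : ∀ x, rev (rev x) = x) :
    (hop E ht).map star = -hop E ht := by
  refine ext_rows h.unit fun x => ?_
  have h1 := h.conj (rev x)
  rw [hrr] at h1
  have h2 := vm_star (E (rev x)) (hop E ht)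
  rw [h1, h.row (rev x), h.hrev] at h2
  have h3 : (fun y => star ((((-ht x : ℤ) : ℂ) • E (rev x)) y)) = ((-ht x : ℤ) : ℂ) • (r (rev x) • E x) := by
    rw [← h1]
    funext y
    simp only [Pi.smul_apply, smul_eq_mul, star_mul']
    congr 1
    simp
  rw [h3, smul_vecMul] at h2
  rw [smul_comm] at h2
  have h4 : E x ᵥ* (hop E ht).map star = ((-ht x : ℤ) : ℂ) • E x := by
    have h5 := congrArg (fun v => (r (rev x))⁻¹ • v) h2
    simp only [smul_smul, inv_mul_cancel₀ (hr (rev x)), one_smul, inv_mul_cancel_left₀ (hr (rev x))] at h5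
    exact h5
  rw [h4, vecMul_neg, h.row]
  push_cast
  rw [neg_smul]

theorem HD.wt (h : HD A E P ht rev r 𝓤) {c : ℤ} {Z : Matrix ι ι ℂ} (hZ : Z ∈ Sc A E ht c) :
    Z * hop E ht - hop E ht * Z = (c : ℂ) • Z := by
  obtain ⟨x, y, rfl, rfl⟩ := hZ
  have h1 : hop E ht * cq A = -(cq A * (hop E ht)ᵀ) := by
    have e0 : E * (hop E ht * cq A + cq A * (hop E ht)ᵀ) * Eᵀ = 0 := by
      have e1 : E * hop E ht = diagonal (fun x => (ht x : ℂ)) * E := by
        unfold hop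
        rw [← Matrix.mul_assoc, ← Matrix.mul_assoc, mul_nonsing_inv _ h.unit, Matrix.one_mul]
      have e2 : (hop E ht)ᵀ * Eᵀ = Eᵀ * diagonal (fun x => (ht x : ℂ)) := by
        rw [← transpose_mul, e1, transpose_mul, diagonal_transpose]
      rw [Matrix.mul_add, Matrix.add_mul]
      calc E * (hop E ht * cq A) * Eᵀ + E * (cq A * (hop E ht)ᵀ) * Eᵀ =
          (E * hop E ht) * cq A * Eᵀ + E * cq A * ((hop E ht)ᵀ * Eᵀ) := by simp only [Matrix.mul_assoc]
        _ = 0 := by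
          rw [e1, e2, ← h.skew]
          simp only [Matrix.mul_assoc]
    have hET : IsUnit Eᵀ.det := by
      rw [det_transpose]
      exact h.unit
    have e3 := congrArg (fun Z => E⁻¹ * Z * (Eᵀ)⁻¹) e0
    simp only [Matrix.mul_zero, Matrix.zero_mul] at e3
    rw [← Matrix.mul_assoc, ← Matrix.mul_assoc, nonsing_inv_mul _ h.unit, Matrix.one_mul, Matrix.mul_assoc,
      mul_nonsing_inv _ hET, Matrix.mul_one] at e3
    exact eq_neg_of_add_eq_zero_left e3
  rw [Zb_apply, vecMulVec_mul, mul_vecMulVec, h.row, mulVec_mulVec, h1, neg_mulVec, ← mulVec_mulVec, mulVec_transpose,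
    h.row, mulVec_smul]
  ext a b
  simp only [Matrix.sub_apply, vecMulVec_apply, Matrix.smul_apply, Pi.smul_apply, Pi.neg_apply, smul_eq_mul]
  push_cast
  ring

theorem row_mem {E : Matrix ι ι ℂ} (hE : IsUnit E.det) (v : ι → ℂ) : v ∈ Submodule.span ℂ (Set.range fun x => E x) := by
  have h1 : v = (v ᵥ* E⁻¹) ᵥ* E := by
    rw [vecMul_vecMul, nonsing_inv_mul _ hE, vecMul_one]
  rw [h1, vecMul_eq_sum]
  exact Submodule.sum_mem _ fun x _ => Submodule.smul_mem _ _ (Submodule.subset_span ⟨x, rfl⟩)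

theorem HD.top (h : HD A E P ht rev r 𝓤) : Submodule.span ℂ (⋃ c, Sc A E ht c) = ⊤ := by
  rw [eq_top_iff]
  have h0 : ∀ v w : ι → ℂ, Zb A v w ∈ Submodule.span ℂ (⋃ c, Sc A E ht c) := by
    intro v w
    have h1 := Submodule.apply_mem_map₂ (Zb A) (row_mem h.unit v) (row_mem h.unit w)
    rw [Submodule.map₂_span_span] at h1
    refine Submodule.span_mono ?_ h1
    rintro _ ⟨_, ⟨x, rfl⟩, _, ⟨y, rfl⟩, rfl⟩
    exact Set.mem_iUnion.2 ⟨_, x, y, rfl, rfl⟩
  intro Z _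
  have hA : IsUnit (cq A).det := isUnit_iff_ne_zero.2 (cq_det h.Adet)
  have h2 : Z = ∑ j, Zb A (Pi.single j 1) ((cq A)⁻¹ *ᵥ fun i => Z i j) := by
    ext a b
    rw [Matrix.sum_apply, Finset.sum_eq_single b]
    · rw [Zb_apply, mulVec_mulVec, mul_nonsing_inv _ hA, one_mulVec, vecMulVec_apply, Pi.single_eq_same, mul_one]
    · intro j _ hj
      rw [Zb_apply, vecMulVec_apply, Pi.single_eq_of_ne hj.symm, mul_zero]
    · intro hb
      exact absurd (Finset.mem_univ _) hb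
  rw [h2]
  exact Submodule.sum_mem _ fun j _ => h0 _ _

theorem HD.le (h : HD A E P ht rev r 𝓤) {c : ℤ} {Z : Matrix ι ι ℂ} (hZ : Z ∈ Tq A P 𝓤 c) :
    Z ∈ Submodule.span ℂ (⋃ c' : {c' : ℤ // c ≤ c'}, Sc A E ht c') := by
  obtain ⟨a, b, rfl, U, hU, U', hU', rfl⟩ := hZ
  have h1 := Submodule.apply_mem_map₂ (Zb A) (h.fil a U hU) (h.fil b U' hU')
  rw [Submodule.map₂_span_span] at h1
  refine Submodule.span_mono ?_ h1
  rintro _ ⟨_, ⟨x, hx, rfl⟩, _, ⟨y, hy, rfl⟩, rfl⟩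
  exact Set.mem_iUnion.2 ⟨⟨ht x + ht y, add_le_add hx hy⟩, x, y, rfl, rfl⟩

theorem HD.ge (h : HD A E P ht rev r 𝓤) {c : ℤ} {Z : Matrix ι ι ℂ} (hZ : Z ∈ Sc A E ht c) :
    Z ∈ Submodule.span ℂ (Tq A P 𝓤 c) := by
  obtain ⟨x, y, rfl, rfl⟩ := hZ
  have h1 := Submodule.apply_mem_map₂ (Zb A) (h.gen x) (h.gen y)
  rw [Submodule.map₂_span_span] at h1
  refine Submodule.span_mono ?_ h1
  rintro _ ⟨_, ⟨U, hU, rfl⟩, _, ⟨U', hU', rfl⟩, rfl⟩
  exact ⟨_, _, rfl, U, hU, U', hU', rfl⟩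

variable {G : Set (Matrix ι ι ℂ)} {s : ℕ} {X : Fin s → Matrix ι ι ℚ}

/-- the group consists of isometries -/
theorem iso_inv (hA : A.det ≠ 0) {g : Matrix ι ι ℂ} (hg : g * cq A * gᵀ = cq A) :
    IsUnit g.det ∧ g⁻¹ * cq A = cq A * gᵀ := by
  have h1 := congrArg Matrix.det hg
  rw [det_mul, det_mul, det_transpose] at h1
  have hg0 : g.det ≠ 0 := by
    intro h0
    rw [h0, mul_zero] at h1
    exact cq_det hA h1.symm
  have hu : IsUnit g.det := isUnit_iff_ne_zero.2 hg0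
  refine ⟨hu, ?_⟩
  calc g⁻¹ * cq A = g⁻¹ * (g * cq A * gᵀ) := by rw [hg]
    _ = (g⁻¹ * g) * (cq A * gᵀ) := by simp only [Matrix.mul_assoc]
    _ = _ := by rw [nonsing_inv_mul _ hu, Matrix.one_mul]

/-- **The Plücker coordinates of all conjugates of the subspace have weight zero.** -/
theorem HD.conj_zero (h : HD A E P ht rev r 𝓤) (hr : ∀ x, r x ≠ 0) (hrr : ∀ x, rev (rev x) = x)
    (hG1 : ∀ g ∈ G, g * cq A * gᵀ = cq A) (hG2 : ∀ g ∈ G, g.map star ∈ G) (hRel : Rel A P G)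
    (hs : s ≤ Fintype.card ι * Fintype.card ι) (hX : LinearIndependent ℚ X)
    (hst : ∀ i, hop E ht * cq (X i) - cq (X i) * hop E ht ∈ Submodule.span ℂ (Set.range fun i => cq (X i)))
    {g : Matrix ι ι ℂ} (hg : g ∈ G) {c : Fin s → ℤ} {Z : Fin s → Matrix ι ι ℂ} (hZ : ∀ j, Z j ∈ Sc A E ht (c j))
    (hc : ∑ j, c j ≠ 0) : Dl (fun i => g * cq (X i) * g⁻¹) Z = 0 := by
  -- the initial vanishing
  have h1 : ∀ (c : Fin s → ℤ) (Z : Fin s → Matrix ι ι ℂ), (∀ j, Z j ∈ Sc A E ht (c j)) → ∑ j, c j ≠ 0 →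
      Dl (fun i => cq (X i)) Z = 0 := fun c Z hZ hc =>
    init (li_cq hX) (fun i => cq_star _) (h.hstar hr hrr) hst (fun j => h.wt (hZ j)) hc
  have h2 : ∀ (c : Fin s → ℤ) (Z : Fin s → Matrix ι ι ℂ), (∀ j, Z j ∈ Tq A P 𝓤 (c j)) → 0 < ∑ j, c j →
      Dl (fun i => cq (X i)) Z = 0 := by
    intro c Z hZ hc
    refine ml_span _ _ (fun Y hY => ?_) Z fun l => h.le (hZ l)
    choose c' hc' using fun l => Set.mem_iUnion.1 (hY l)
    refine h1 (fun l => (c' l : ℤ)) Y hc' (ne_of_gt (lt_of_lt_of_le hc ?_))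
    exact Finset.sum_le_sum fun l _ => (c' l).2
  -- the relations
  have h3 : ∀ g ∈ G, ∀ (c : Fin s → ℤ) (Z : Fin s → Matrix ι ι ℂ), (∀ j, Z j ∈ Tq A P 𝓤 (c j)) → 0 < ∑ j, c j →
      Dl (fun i => g * cq (X i) * g⁻¹) Z = 0 := by
    intro g hg c Z hZ hc
    obtain ⟨hgu, hgA⟩ := iso_inv h.Adet (hG1 g hg)
    have h4 := h2 c Z hZ hc
    choose a b hab U hU U' hU' hZe using hZ
    rw [Dl_apply] at h4 ⊢
    have e1 : (Matrix.of fun j i => trace (Z j * cq (X i))) =
        Matrix.of fun j i => (cv (U j) ᵥ* P) ⬝ᵥ ((cq (X i) * cq A) *ᵥ (cv (U' j) ᵥ* P)) := by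
      ext j i
      rw [of_apply, of_apply, hZe, Zb_trace]
    have e2 : (Matrix.of fun j i => trace (Z j * (g * cq (X i) * g⁻¹))) =
        Matrix.of fun j i => (cv (U j) ᵥ* P ᵥ* g) ⬝ᵥ ((cq (X i) * cq A) *ᵥ (cv (U' j) ᵥ* P ᵥ* g)) := by
      ext j i
      rw [of_apply, of_apply, hZe, Zb_trace]
      have e3 : g * cq (X i) * g⁻¹ * cq A = g * ((cq (X i) * cq A) * gᵀ) := by
        rw [Matrix.mul_assoc _ g⁻¹, hgA]
        simp only [Matrix.mul_assoc]
      rw [e3, ← mulVec_mulVec, dotProduct_mulVec, ← mulVec_mulVec, mulVec_transpose]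
    rw [e2]
    rw [e1] at h4
    exact hRel s hs X U U' h4 g hg
  have h4 : ∀ g ∈ G, ∀ (c : Fin s → ℤ) (Z : Fin s → Matrix ι ι ℂ), (∀ j, Z j ∈ Sc A E ht (c j)) → 0 < ∑ j, c j →
      Dl (fun i => g * cq (X i) * g⁻¹) Z = 0 := by
    intro g hg c Z hZ hc
    exact ml_span _ _ (fun Y hY => h3 g hg c Y hY hc) Z fun l => h.ge (hZ l)
  rcases lt_or_gt_of_ne hc with hc | hc
  · -- the complex conjugate
    choose x y hxy hZe using hZ
    have hgu := (iso_inv h.Adet (hG1 g hg)).1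
    have h5 := h4 (g.map star) (hG2 g hg) (fun j => -c j) (fun j => Zb A (E (rev (x j))) (E (rev (y j))))
      (fun j => ⟨_, _, by rw [h.hrev, h.hrev, ← hxy]; ring, rfl⟩) (by
        rw [Finset.sum_neg_distrib]
        omega)
    have h6 : star (Dl (fun i => g * cq (X i) * g⁻¹) Z) =
        Dl (fun i => g.map star * cq (X i) * (g.map star)⁻¹) (fun j => (r (x j) * r (y j)) • Zb A (E (rev (x j))) (E (rev (y j)))) := by
      rw [Dl_apply, Dl_apply]
      have e0 : (g⁻¹).map star = (g.map star)⁻¹ := by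
        symm
        refine inv_eq_right_inv ?_
        rw [← map_star_mul, mul_nonsing_inv _ hgu]
        ext a b
        simp only [map_apply, one_apply]
        split_ifs <;> simp
      have e1 : ∀ M : Matrix (Fin s) (Fin s) ℂ, star M.det = (M.map star).det := by
        intro M
        rw [← det_conjTranspose, conjTranspose, transpose_map, det_transpose]
      rw [e1]
      congr 1
      ext j i
      rw [map_apply, of_apply, of_apply, hZe]
      have e2 : ∀ M : Matrix ι ι ℂ, star (trace M) = trace (M.map star) := by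
        intro M
        rw [trace, trace, star_sum]
        rfl
      rw [e2, map_star_mul, map_star_mul, map_star_mul, cq_star, e0]
      congr 2
      rw [Zb_apply, Zb_apply]
      ext a b
      simp only [map_apply, vecMulVec_apply, Matrix.smul_apply, smul_eq_mul, star_mul', mulVec, dotProduct, star_sum]
      have e3 := congrFun (h.conj (x j)) b
      have e4 := fun b => congrFun (h.conj (y j)) b
      simp only [Pi.smul_apply, smul_eq_mul] at e3 e4
      rw [e3]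
      simp only [e4]
      have e5 : ∀ d, star (cq A a d) = cq A a d := by
        intro d
        simp [cq]
      simp only [e5]
      rw [Finset.sum_mul, Finset.sum_mul, Finset.mul_sum]
      refine Finset.sum_congr rfl fun d _ => ?_
      ring
    rw [MultilinearMap.map_smul_univ, h5, smul_zero, star_eq_zero] at h6
    exact h6
  · exact h4 g hg c Z hZ hc

end

end Run7.h893.GH
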