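import Pool.Agent.Run7.h893.GH.Core

/-!
# Rational Lie algebras which contain the Hodge operator contain the root vectors
-/

set_option autoImplicit false
set_option linter.unusedSectionVars false

open Matrix

namespace Run7.h893.GH

variable {ι : Type} [Fintype ι] [DecidableEq ι]

/-- the complexification of a rational space of matrices -/
def mC (𝔪 : Submodule ℚ (Matrix ι ι ℚ)) : Submodule ℂ (Matrix ι ι ℂ) := Submodule.span ℂ (cq '' (𝔪 : Set (Matrix ι ι ℚ)))

theorem mC_br {𝔪 : Submodule ℚ (Matrix ι ι ℚ)} (hbr : ∀ X ∈ 𝔪, ∀ Y ∈ 𝔪, X * Y - Y * X ∈ 𝔪) {X Y : Matrix ι ι ℂ}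
    (hX : X ∈ mC 𝔪) (hY : Y ∈ mC 𝔪) : X * Y - Y * X ∈ mC 𝔪 := by
  unfold mC at hX
  induction hX using Submodule.span_induction with
  | mem X hX =>
    obtain ⟨X, hX, rfl⟩ := hX
    unfold mC at hY
    induction hY using Submodule.span_induction with
    | mem Y hY =>
      obtain ⟨Y, hY, rfl⟩ := hY
      rw [← cq_mul, ← cq_mul, ← cq_sub]
      exact Submodule.subset_span ⟨_, hbr X hX Y hY, rfl⟩
    | zero =>
      rw [Matrix.mul_zero, Matrix.zero_mul, sub_zero]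
      exact Submodule.zero_mem _
    | add a b _ _ ha hb =>
      have : cq X * (a + b) - (a + b) * cq X = (cq X * a - a * cq X) + (cq X * b - b * cq X) := by
        rw [Matrix.mul_add, Matrix.add_mul]
        abel
      rw [this]
      exact Submodule.add_mem _ ha hb
    | smul c a _ ha =>
      rw [Matrix.mul_smul, Matrix.smul_mul, ← smul_sub]
      exact Submodule.smul_mem _ _ ha
  | zero =>
    rw [Matrix.mul_zero, Matrix.zero_mul, sub_zero]
    exact Submodule.zero_mem _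
  | add a b _ _ ha hb =>
    have : (a + b) * Y - Y * (a + b) = (a * Y - Y * a) + (b * Y - Y * b) := by
      rw [Matrix.mul_add, Matrix.add_mul]
      abel
    rw [this]
    exact Submodule.add_mem _ ha hb
  | smul c a _ ha =>
    rw [Matrix.mul_smul, Matrix.smul_mul, ← smul_sub]
    exact Submodule.smul_mem _ _ ha

theorem mC_star {𝔪 : Submodule ℚ (Matrix ι ι ℚ)} {X : Matrix ι ι ℂ} (hX : X ∈ mC 𝔪) : X.map star ∈ mC 𝔪 := by
  unfold mC at hX
  induction hX using Submodule.span_induction with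
  | mem X hX =>
    obtain ⟨X, hX, rfl⟩ := hX
    rw [cq_star]
    exact Submodule.subset_span ⟨_, hX, rfl⟩
  | zero =>
    have : (0 : Matrix ι ι ℂ).map star = 0 := by
      ext i j
      simp
    rw [this]
    exact Submodule.zero_mem _
  | add a b _ _ ha hb =>
    have : (a + b).map star = a.map star + b.map star := by
      ext i j
      simp
    rw [this]
    exact Submodule.add_mem _ ha hb
  | smul c a _ ha =>
    have : (c • a).map star = star c • a.map star := by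
      ext i j
      simp
    rw [this]
    exact Submodule.smul_mem _ _ ha

/-- rational elements of the complexification -/
theorem mC_rat {𝔪 : Submodule ℚ (Matrix ι ι ℚ)} {X : Matrix ι ι ℚ} (hX : cq X ∈ mC 𝔪) : X ∈ 𝔪 := by
  by_contra hcon
  obtain ⟨φ, h1, h2⟩ := Submodule.exists_le_ker_of_notMem hcon
  have hval : ∀ (M : Matrix ι ι ℚ), φ M = ∑ a, ∑ b, φ (Matrix.single a b 1) * M a b := by
    intro M
    have h1 : M = ∑ i, ∑ j, M i j • Matrix.single i j (1 : ℚ) := by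
      conv_lhs => rw [matrix_eq_sum_single M]
      refine Finset.sum_congr rfl fun i _ => Finset.sum_congr rfl fun j _ => ?_
      rw [smul_single, smul_eq_mul, mul_one]
    conv_lhs => rw [h1]
    rw [map_sum]
    simp only [map_sum, map_smul, smul_eq_mul]
    refine Finset.sum_congr rfl fun i _ => Finset.sum_congr rfl fun j _ => ?_
    ring
  have hv : ∀ (M : Matrix ι ι ℚ), ((φ M : ℚ) : ℂ) = ∑ a, ∑ b, ((φ (Matrix.single a b 1) : ℚ) : ℂ) * cq M a b := by
    intro M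
    rw [hval M]
    push_cast
    rfl
  have h3 : ∀ Y ∈ mC 𝔪, ∑ a, ∑ b, ((φ (Matrix.single a b 1) : ℚ) : ℂ) * Y a b = 0 := by
    intro Y hY
    unfold mC at hY
    induction hY using Submodule.span_induction with
    | mem Y hY =>
      obtain ⟨Y, hY, rfl⟩ := hY
      rw [← hv, LinearMap.mem_ker.1 (h2 hY), Rat.cast_zero]
    | zero => simp
    | add a b _ _ ha hb =>
      simp only [Matrix.add_apply, mul_add, Finset.sum_add_distrib]
      rw [ha, hb, add_zero]
    | smul c a _ ha =>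
      simp only [Matrix.smul_apply, smul_eq_mul]
      have : ∀ x y : ι, ((φ (Matrix.single x y 1) : ℚ) : ℂ) * (c * a x y) = c * (((φ (Matrix.single x y 1) : ℚ) : ℂ) * a x y) :=
        fun x y => by ring
      simp only [this, ← Finset.mul_sum]
      rw [ha, mul_zero]
  have h4 := h3 _ hX
  rw [← hv] at h4
  exact h1 (by exact_mod_cast h4)

theorem mC_basis (𝔪 : Submodule ℚ (Matrix ι ι ℚ)) : ∃ s : ℕ, s ≤ Fintype.card ι * Fintype.card ι ∧
    ∃ X : Fin s → Matrix ι ι ℚ, LinearIndependent ℚ X ∧ mC 𝔪 = Submodule.span ℂ (Set.range fun i => cq (X i)) := by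
  let b := Module.finBasis ℚ 𝔪
  refine ⟨Module.finrank ℚ 𝔪, ?_, fun i => (b i : Matrix ι ι ℚ), ?_, ?_⟩
  · have h1 := Submodule.finrank_le 𝔪
    rwa [Module.finrank_matrix, Module.finrank_self, mul_one] at h1
  · exact b.linearIndependent.map' 𝔪.subtype 𝔪.ker_subtype
  · refine le_antisymm (Submodule.span_le.2 ?_) (Submodule.span_le.2 ?_)
    · rintro _ ⟨M, hM, rfl⟩
      have h1 := b.sum_repr ⟨M, hM⟩
      have h2 : M = ∑ i, b.repr ⟨M, hM⟩ i • (b i : Matrix ι ι ℚ) := by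
        have h3 := congrArg (fun x : 𝔪 => (x : Matrix ι ι ℚ)) h1
        simp only [Submodule.coe_sum, Submodule.coe_smul] at h3
        exact h3.symm
      have h3 : cq M = ∑ i, ((b.repr ⟨M, hM⟩ i : ℚ) : ℂ) • cq (b i : Matrix ι ι ℚ) := by
        conv_lhs => rw [h2]
        ext x y
        unfold cq
        rw [map_apply, Matrix.sum_apply, Matrix.sum_apply]
        push_cast
        refine Finset.sum_congr rfl fun i _ => ?_
        rw [Matrix.smul_apply, Matrix.smul_apply, smul_eq_mul, smul_eq_mul, map_apply]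
        push_cast
        rfl
      rw [SetLike.mem_coe, h3]
      exact Submodule.sum_mem _ fun i _ => Submodule.smul_mem _ _ (Submodule.subset_span ⟨i, rfl⟩)
    · rintro _ ⟨i, rfl⟩
      exact Submodule.subset_span ⟨_, (b i).2, rfl⟩

/-- conjugation -/
noncomputable def cjl (g g' : Matrix ι ι ℂ) : Matrix ι ι ℂ →ₗ[ℂ] Matrix ι ι ℂ where
  toFun := fun M => g * M * g'
  map_add' := fun a b => by rw [Matrix.mul_add, Matrix.add_mul]
  map_smul' := fun c a => by
    rw [Matrix.mul_smul, Matrix.smul_mul]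
    rfl

theorem cjl_apply (g g' M : Matrix ι ι ℂ) : cjl g g' M = g * M * g' := rfl

/-- the commutator with a matrix -/
noncomputable def adl (h : Matrix ι ι ℂ) : Matrix ι ι ℂ →ₗ[ℂ] Matrix ι ι ℂ where
  toFun := fun M => h * M - M * h
  map_add' := fun a b => by
    rw [Matrix.mul_add, Matrix.add_mul]
    abel
  map_smul' := fun c a => by
    rw [Matrix.mul_smul, Matrix.smul_mul, ← smul_sub]
    rfl

theorem adl_apply (h M : Matrix ι ι ℂ) : adl h M = h * M - M * h := rfl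

theorem adl_add (h h' M : Matrix ι ι ℂ) : adl (h + h') M = adl h M + adl h' M := by
  simp only [adl_apply, Matrix.mul_add, Matrix.add_mul]
  abel

theorem adl_sub (h h' M : Matrix ι ι ℂ) : adl (h - h') M = adl h M - adl h' M := by
  simp only [adl_apply, Matrix.mul_sub, Matrix.sub_mul]
  abel

theorem adl_smul (c : ℂ) (h M : Matrix ι ι ℂ) : adl (c • h) M = c • adl h M := by
  simp only [adl_apply, Matrix.mul_smul, Matrix.smul_mul, smul_sub]

section

variable {A : Matrix ι ι ℚ} {E P : Matrix ι ι ℂ} {ht : ι → ℤ} {rev : ι → ι} {r : ι → ℂ} {𝓤 : ℤ → Set (ι → ℚ)}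
  {G : Set (Matrix ι ι ℂ)} {𝔪 : Submodule ℚ (Matrix ι ι ℚ)}

/-- the Lie algebra is stable under the conjugates of the Hodge operator -/
theorem HD.stab (h : HD A E P ht rev r 𝓤) (hr : ∀ x, r x ≠ 0) (hrr : ∀ x, rev (rev x) = x)
    (hG1 : ∀ g ∈ G, g * cq A * gᵀ = cq A) (hG2 : ∀ g ∈ G, g.map star ∈ G) (hRel : Rel A P G)
    (hbr : ∀ X ∈ 𝔪, ∀ Y ∈ 𝔪, X * Y - Y * X ∈ 𝔪) (hh : hop E ht ∈ mC 𝔪) {g : Matrix ι ι ℂ} (hg : g ∈ G) {X : Matrix ι ι ℂ}
    (hX : X ∈ mC 𝔪) : adl (g⁻¹ * hop E ht * g) X ∈ mC 𝔪 := by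
  obtain ⟨s, hs, Y, hY, hm⟩ := mC_basis 𝔪
  have hgu := (iso_inv h.Adet (hG1 g hg)).1
  have hst : ∀ i, hop E ht * cq (Y i) - cq (Y i) * hop E ht ∈ Submodule.span ℂ (Set.range fun i => cq (Y i)) := by
    intro i
    rw [← hm]
    refine mC_br hbr hh ?_
    rw [hm]
    exact Submodule.subset_span ⟨i, rfl⟩
  have hinj : Function.Injective (cjl g g⁻¹) := by
    intro a b hab
    rw [cjl_apply, cjl_apply] at hab
    have h1 := congrArg (fun M => g⁻¹ * M * g) hab
    have h2 : ∀ M : Matrix ι ι ℂ, g⁻¹ * (g * M * g⁻¹) * g = M := by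
      intro M
      calc g⁻¹ * (g * M * g⁻¹) * g = (g⁻¹ * g) * M * (g⁻¹ * g) := by simp only [Matrix.mul_assoc]
        _ = M := by rw [nonsing_inv_mul _ hgu, Matrix.one_mul, Matrix.mul_one]
    simp only [h2] at h1
    exact h1
  have hYg : LinearIndependent ℂ fun i => g * cq (Y i) * g⁻¹ :=
    (li_cq hY).map' (cjl g g⁻¹) (LinearMap.ker_eq_bot.2 hinj)
  have key : ∀ i, adl (g⁻¹ * hop E ht * g) (cq (Y i)) ∈ mC 𝔪 := by
    intro i
    have h1 := pluck (Y := fun i => g * cq (Y i) * g⁻¹) hYg (D := adl (hop E ht)) (D' := -adl (hop E ht)) (fun Z X => by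
        rw [adl_apply, LinearMap.neg_apply, adl_apply, neg_sub, Matrix.mul_sub, Matrix.sub_mul, trace_sub, trace_sub,
          ← Matrix.mul_assoc, ← Matrix.mul_assoc, trace_mul_comm (Z * X), ← Matrix.mul_assoc])
      (S := Sc A E ht) (fun c Z hZ => by
        rw [LinearMap.neg_apply, adl_apply, neg_sub]
        exact h.wt hZ) h.top
      (fun c Z hZ hc => h.conj_zero hr hrr hG1 hG2 hRel hs hY hst hg hZ hc) i
    have h2 := Submodule.mem_map_of_mem (f := cjl g⁻¹ g) h1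
    rw [Submodule.map_span] at h2
    have h3 : (cjl g⁻¹ g) '' (Set.range fun i => g * cq (Y i) * g⁻¹) = Set.range fun i => cq (Y i) := by
      rw [← Set.range_comp]
      congr 1
      funext i
      show g⁻¹ * (g * cq (Y i) * g⁻¹) * g = cq (Y i)
      calc g⁻¹ * (g * cq (Y i) * g⁻¹) * g = (g⁻¹ * g) * cq (Y i) * (g⁻¹ * g) := by simp only [Matrix.mul_assoc]
        _ = _ := by rw [nonsing_inv_mul _ hgu, Matrix.one_mul, Matrix.mul_one]
    rw [h3, ← hm] at h2
    have h4 : (cjl g⁻¹ g) (adl (hop E ht) (g * cq (Y i) * g⁻¹)) = adl (g⁻¹ * hop E ht * g) (cq (Y i)) := by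
      rw [cjl_apply, adl_apply, adl_apply, Matrix.mul_sub, Matrix.sub_mul]
      congr 1
      · calc g⁻¹ * (hop E ht * (g * cq (Y i) * g⁻¹)) * g = g⁻¹ * hop E ht * g * cq (Y i) * (g⁻¹ * g) := by
              simp only [Matrix.mul_assoc]
          _ = _ := by rw [nonsing_inv_mul _ hgu, Matrix.mul_one]
      · calc g⁻¹ * (g * cq (Y i) * g⁻¹ * hop E ht) * g = (g⁻¹ * g) * cq (Y i) * (g⁻¹ * hop E ht * g) := by
              simp only [Matrix.mul_assoc]
          _ = _ := by rw [nonsing_inv_mul _ hgu, Matrix.one_mul]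
    rw [h4] at h2
    exact h2
  rw [hm] at hX
  induction hX using Submodule.span_induction with
  | mem X hX =>
    obtain ⟨i, rfl⟩ := hX
    exact key i
  | zero =>
    rw [map_zero]
    exact Submodule.zero_mem _
  | add a b _ _ ha hb =>
    rw [map_add]
    exact Submodule.add_mem _ ha hb
  | smul c a _ ha =>
    rw [map_smul]
    exact Submodule.smul_mem _ _ ha

/-- the exponential of a nilpotent matrix -/
noncomputable def ex3 (R : Matrix ι ι ℂ) (t : ℂ) : Matrix ι ι ℂ := 1 + t • R + (t ^ 2 / 2) • (R * R)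

theorem ex3_mul {R : Matrix ι ι ℂ} (hR : R * R * R = 0) (t : ℂ) : ex3 R t * ex3 R (-t) = 1 := by
  have h4 : R * R * (R * R) = 0 := by rw [← Matrix.mul_assoc, hR, Matrix.zero_mul]
  have h3 : R * (R * R) = 0 := by rw [← Matrix.mul_assoc, hR]
  unfold ex3
  simp only [Matrix.add_mul, Matrix.mul_add, Matrix.smul_mul, Matrix.mul_smul, Matrix.one_mul, Matrix.mul_one, h3, hR, h4,
    smul_zero, add_zero, smul_smul]
  module

/-- **the root vectors normalise the Lie algebra** -/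
theorem HD.root (h : HD A E P ht rev r 𝓤) (hr : ∀ x, r x ≠ 0) (hrr : ∀ x, rev (rev x) = x)
    (hG1 : ∀ g ∈ G, g * cq A * gᵀ = cq A) (hG2 : ∀ g ∈ G, g.map star ∈ G) (hRel : Rel A P G)
    (hbr : ∀ X ∈ 𝔪, ∀ Y ∈ 𝔪, X * Y - Y * X ∈ 𝔪) (hh : hop E ht ∈ mC 𝔪) {R : Matrix ι ι ℂ} (hR : R * R * R = 0) {μ : ℂ}
    (hμ : μ ≠ 0) (hw : diagonal (fun x => (ht x : ℂ)) * R - R * diagonal (fun x => (ht x : ℂ)) = μ • R)
    (hex : ∀ t, E⁻¹ * ex3 R t * E ∈ G) :
    (∀ X ∈ mC 𝔪, adl (E⁻¹ * R * E) X ∈ mC 𝔪) ∧ E⁻¹ * R * E ∈ mC 𝔪 := by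
  have hE := h.unit
  have hinv : ∀ t, (E⁻¹ * ex3 R t * E)⁻¹ = E⁻¹ * ex3 R (-t) * E := by
    intro t
    refine inv_eq_right_inv ?_
    calc E⁻¹ * ex3 R t * E * (E⁻¹ * ex3 R (-t) * E) = E⁻¹ * (ex3 R t * (E * E⁻¹) * ex3 R (-t)) * E := by
          simp only [Matrix.mul_assoc]
      _ = 1 := by rw [mul_nonsing_inv _ hE, Matrix.mul_one, ex3_mul hR, Matrix.mul_one, nonsing_inv_mul _ hE]
  set H : Matrix ι ι ℂ := diagonal (fun x => (ht x : ℂ)) with hH
  have hf : ∀ t, (E⁻¹ * ex3 R t * E)⁻¹ * hop E ht * (E⁻¹ * ex3 R t * E) = E⁻¹ * (ex3 R (-t) * H * ex3 R t) * E := by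
    intro t
    rw [hinv]
    unfold hop
    calc E⁻¹ * ex3 R (-t) * E * (E⁻¹ * H * E) * (E⁻¹ * ex3 R t * E) =
        E⁻¹ * (ex3 R (-t) * (E * E⁻¹) * H * (E * E⁻¹) * ex3 R t) * E := by simp only [Matrix.mul_assoc]
      _ = _ := by rw [mul_nonsing_inv _ hE, Matrix.mul_one, Matrix.mul_one]
  have hid : (12 : ℂ) • (H * R - R * H) =
      (8 : ℂ) • (ex3 R (-1) * H * ex3 R 1 - ex3 R 1 * H * ex3 R (-1)) -
        (ex3 R (-2) * H * ex3 R 2 - ex3 R 2 * H * ex3 R (-2)) := by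
    unfold ex3
    simp only [Matrix.add_mul, Matrix.mul_add, Matrix.smul_mul, Matrix.mul_smul, Matrix.one_mul, Matrix.mul_one,
      smul_smul, Matrix.mul_assoc]
    module
  have hmem : ∀ X ∈ mC 𝔪, adl (E⁻¹ * R * E) X ∈ mC 𝔪 := by
    intro X hX
    have h1 : ∀ t, adl (E⁻¹ * (ex3 R (-t) * H * ex3 R t) * E) X ∈ mC 𝔪 := by
      intro t
      rw [← hf]
      exact h.stab hr hrr hG1 hG2 hRel hbr hh (hex t) hX
    have h2 : (12 * μ) • (E⁻¹ * R * E) = (8 : ℂ) • (E⁻¹ * (ex3 R (-1) * H * ex3 R 1) * E -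
        E⁻¹ * (ex3 R 1 * H * ex3 R (-1)) * E) -
        (E⁻¹ * (ex3 R (-2) * H * ex3 R 2) * E - E⁻¹ * (ex3 R 2 * H * ex3 R (-2)) * E) := by
      have h3 : (12 * μ) • (E⁻¹ * R * E) = E⁻¹ * ((12 : ℂ) • (H * R - R * H)) * E := by
        rw [hw, smul_smul, Matrix.mul_smul, Matrix.smul_mul]
      rw [h3, hid]
      simp only [Matrix.mul_sub, Matrix.sub_mul, Matrix.mul_smul, Matrix.smul_mul]
    have h3 : adl (E⁻¹ * R * E) X = (12 * μ)⁻¹ • adl ((12 * μ) • (E⁻¹ * R * E)) X := by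
      rw [adl_smul, smul_smul, inv_mul_cancel₀ (mul_ne_zero (by norm_num) hμ), one_smul]
    rw [h3, h2]
    refine Submodule.smul_mem _ _ ?_
    rw [adl_sub, adl_smul, adl_sub, adl_sub]
    have e1 := h1 1
    have e2 := h1 (-1)
    have e3 := h1 2
    have e4 := h1 (-2)
    rw [neg_neg] at e2 e4
    exact Submodule.sub_mem _ (Submodule.smul_mem _ _ (Submodule.sub_mem _ e1 e2)) (Submodule.sub_mem _ e3 e4)
  refine ⟨hmem, ?_⟩
  have h1 := hmem _ hh
  have h2 : adl (E⁻¹ * R * E) (hop E ht) = (-μ) • (E⁻¹ * R * E) := by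
    rw [adl_apply]
    unfold hop
    have h3 : E⁻¹ * R * E * (E⁻¹ * H * E) - E⁻¹ * H * E * (E⁻¹ * R * E) = E⁻¹ * (R * H - H * R) * E := by
      calc E⁻¹ * R * E * (E⁻¹ * H * E) - E⁻¹ * H * E * (E⁻¹ * R * E) =
          E⁻¹ * (R * (E * E⁻¹) * H) * E - E⁻¹ * (H * (E * E⁻¹) * R) * E := by simp only [Matrix.mul_assoc]
        _ = _ := by
          rw [mul_nonsing_inv _ hE, Matrix.mul_one, Matrix.mul_one, Matrix.mul_sub, Matrix.sub_mul]
    rw [h3, ← neg_sub (H * R), hw, Matrix.mul_neg, Matrix.neg_mul, Matrix.mul_smul, Matrix.smul_mul, neg_smul]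
  rw [h2] at h1
  exact (Submodule.smul_mem_iff _ (neg_ne_zero.2 hμ)).1 h1

end

end Run7.h893.GH
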