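import Mathlib

/-!
# Determinants of functionals, and subspaces which are stable under a diagonalisable operator
-/

set_option autoImplicit false
set_option linter.unusedSectionVars false

open Matrix

namespace Run7.h893.GH

/-- multilinear maps vanish on spans -/
theorem ml_span {D M : Type} [Fintype D] [DecidableEq D] [AddCommGroup M] [Module ℂ M]
    (f : MultilinearMap ℂ (fun _ : D => M) ℂ) (S : D → Set M) (h : ∀ x : D → M, (∀ l, x l ∈ S l) → f x = 0) (x : D → M)
    (hx : ∀ l, x l ∈ Submodule.span ℂ (S l)) : f x = 0 := by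
  have key : ∀ s : Finset D, ∀ x : D → M, (∀ l ∈ s, x l ∈ Submodule.span ℂ (S l)) → (∀ l ∉ s, x l ∈ S l) → f x = 0 := by
    intro s
    induction s using Finset.induction_on with
    | empty =>
      intro x _ h2
      exact h x fun l => h2 l (Finset.notMem_empty l)
    | insert l s hl ih =>
      intro x h1 h2
      have h3 : ∀ y ∈ Submodule.span ℂ (S l), f (Function.update x l y) = 0 := by
        intro y hy
        induction hy using Submodule.span_induction with
        | mem y hy =>
          refine ih _ (fun l' hl' => ?_) (fun l' hl' => ?_)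
          · rw [Function.update_of_ne (ne_of_mem_of_not_mem hl' hl)]
            exact h1 l' (Finset.mem_insert_of_mem hl')
          · by_cases hll : l' = l
            · subst hll
              rw [Function.update_self]
              exact hy
            · rw [Function.update_of_ne hll]
              exact h2 l' (by simp [hll, hl'])
        | zero => exact f.map_coord_zero l (by simp)
        | add a b _ _ ha hb => rw [f.map_update_add, ha, hb, add_zero]
        | smul c a _ ha => rw [f.map_update_smul, ha, smul_zero]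
      have h4 := h3 (x l) (h1 l (Finset.mem_insert_self l s))
      rwa [Function.update_eq_self] at h4
  exact key Finset.univ x (fun l _ => hx l) (fun l hl => absurd (Finset.mem_univ l) hl)

variable {ι : Type} [Fintype ι] [DecidableEq ι] {s : ℕ}

/-- the functionals given by the trace form -/
noncomputable def tr1 (X : Fin s → Matrix ι ι ℂ) : Matrix ι ι ℂ →ₗ[ℂ] (Fin s → ℂ) where
  toFun := fun Z i => trace (Z * X i)
  map_add' := fun a b => by
    funext i
    rw [Matrix.add_mul, trace_add]
    rfl
  map_smul' := fun c a => by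
    funext i
    rw [Matrix.smul_mul, trace_smul]
    rfl

theorem tr1_apply (X : Fin s → Matrix ι ι ℂ) (Z : Matrix ι ι ℂ) (i : Fin s) : tr1 X Z i = trace (Z * X i) := rfl

/-- the determinant of the values of functionals -/
noncomputable def Dl (X : Fin s → Matrix ι ι ℂ) : MultilinearMap ℂ (fun _ : Fin s => Matrix ι ι ℂ) ℂ :=
  (detRowAlternating (R := ℂ) (n := Fin s)).toMultilinearMap.compLinearMap fun _ => tr1 X

theorem Dl_apply (X Z : Fin s → Matrix ι ι ℂ) : Dl X Z = det (Matrix.of fun j i => trace (Z j * X i)) := rfl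

/-- functionals are given by the trace form -/
theorem exists_tr (f : Matrix ι ι ℂ →ₗ[ℂ] ℂ) : ∃ Z : Matrix ι ι ℂ, ∀ X, trace (Z * X) = f X := by
  refine ⟨Matrix.of fun j i => f (Matrix.single i j 1), fun X => ?_⟩
  have h1 : X = ∑ i, ∑ j, X i j • Matrix.single i j (1 : ℂ) := by
    conv_lhs => rw [matrix_eq_sum_single X]
    refine Finset.sum_congr rfl fun i _ => Finset.sum_congr rfl fun j _ => ?_
    rw [smul_single, smul_eq_mul, mul_one]
  conv_rhs => rw [h1]
  rw [map_sum]
  simp only [map_sum, map_smul, smul_eq_mul]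
  rw [trace]
  simp only [diag_apply, mul_apply, of_apply]
  rw [Finset.sum_comm]
  refine Finset.sum_congr rfl fun i _ => Finset.sum_congr rfl fun j _ => ?_
  ring

theorem det_upd {s : ℕ} (i : Fin s) (v : Fin s → ℂ) : det ((1 : Matrix (Fin s) (Fin s) ℂ).updateRow i v) = v i := by
  have h1 := Matrix.cramer_apply (1 : Matrix (Fin s) (Fin s) ℂ) v i
  rw [Matrix.cramer_one] at h1
  have h2 : ((1 : Matrix (Fin s) (Fin s) ℂ).updateRow i v) = (((1 : Matrix (Fin s) (Fin s) ℂ).updateCol i v))ᵀ := by
    rw [← updateRow_transpose, transpose_one]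
  rw [h2, det_transpose, ← h1]
  rfl

/-- **A subspace all whose Plücker coordinates have weight zero is stable.** -/
theorem pluck {Y : Fin s → Matrix ι ι ℂ} (hY : LinearIndependent ℂ Y) {D D' : Matrix ι ι ℂ →ₗ[ℂ] Matrix ι ι ℂ}
    (hDD : ∀ Z X, trace (Z * D X) = trace (D' Z * X)) {S : ℤ → Set (Matrix ι ι ℂ)}
    (hS : ∀ c, ∀ Z ∈ S c, D' Z = (c : ℂ) • Z) (htop : Submodule.span ℂ (⋃ c, S c) = ⊤)
    (h0 : ∀ (c : Fin s → ℤ) (Z : Fin s → Matrix ι ι ℂ), (∀ j, Z j ∈ S (c j)) → ∑ j, c j ≠ 0 → Dl Y Z = 0) (i₀ : Fin s) :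
    D (Y i₀) ∈ Submodule.span ℂ (Set.range Y) := by
  classical
  let G : MultilinearMap ℂ (fun _ : Fin s => Matrix ι ι ℂ) ℂ :=
    ∑ j : Fin s, (Dl Y).compLinearMap fun l => if l = j then D' else LinearMap.id
  have hG : ∀ Z, G Z = ∑ j, Dl Y (Function.update Z j (D' (Z j))) := by
    intro Z
    show (∑ j : Fin s, (Dl Y).compLinearMap fun l => if l = j then D' else LinearMap.id) Z = _
    rw [_root_.sum_apply]
    refine Finset.sum_congr rfl fun j _ => ?_
    rw [MultilinearMap.compLinearMap_apply]
    congr 1
    funext l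
    by_cases h : l = j
    · subst h
      rw [if_pos rfl, Function.update_self]
    · rw [if_neg h, Function.update_of_ne h, LinearMap.id_apply]
  have hG0 : ∀ Z, G Z = 0 := by
    intro Z
    refine ml_span G (fun _ => ⋃ c, S c) (fun Z hZ => ?_) Z fun l => by rw [htop]; exact Submodule.mem_top
    have h1 : ∀ l, ∃ c, Z l ∈ S c := fun l => Set.mem_iUnion.1 (hZ l)
    choose c hc using h1
    rw [hG]
    have h2 : ∀ j, Dl Y (Function.update Z j (D' (Z j))) = (c j : ℂ) * Dl Y Z := by
      intro j
      rw [hS _ _ (hc j), MultilinearMap.map_update_smul, Function.update_eq_self, smul_eq_mul]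
    simp only [h2]
    rw [← Finset.sum_mul]
    by_cases h3 : ∑ j, c j = 0
    · have h4 : ∑ j, (c j : ℂ) = 0 := by
        rw [← Int.cast_sum, h3, Int.cast_zero]
      rw [h4, zero_mul]
    · rw [h0 c Z hc h3, mul_zero]
  by_contra hcon
  obtain ⟨f, hf2, hf1⟩ := Submodule.exists_le_ker_of_notMem hcon
  -- the dual functionals
  have hdual : ∃ φ : Fin s → (Matrix ι ι ℂ →ₗ[ℂ] ℂ), ∀ l i, φ l (Y i) = if l = i then 1 else 0 := by
    let b := Module.Basis.span hY
    obtain ⟨q, hq⟩ := Submodule.exists_isCompl (Submodule.span ℂ (Set.range Y))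
    let π := Submodule.projectionOnto _ _ hq
    refine ⟨fun l => (b.coord l).comp π, fun l i => ?_⟩
    rw [LinearMap.comp_apply]
    have h1 : Y i = ((b i : Submodule.span ℂ (Set.range Y)) : Matrix ι ι ℂ) := by
      rw [Module.Basis.span_apply hY i]
    have h2 : π (Y i) = b i := by
      rw [h1]
      exact Submodule.projectionOnto_apply_left hq _
    rw [h2, Module.Basis.coord_apply, Module.Basis.repr_self, Finsupp.single_apply]
    simp only [eq_comm]
  obtain ⟨φ, hφ⟩ := hdual
  obtain ⟨Z₀, hZ₀⟩ := exists_tr f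
  choose Zf hZf using fun l => exists_tr (φ l)
  set Z : Fin s → Matrix ι ι ℂ := Function.update Zf i₀ Z₀ with hZ
  have hfY : ∀ i, f (Y i) = 0 := fun i => LinearMap.mem_ker.1 (hf1 (Submodule.subset_span ⟨i, rfl⟩))
  have h1 := hG0 Z
  rw [hG, Finset.sum_eq_single i₀] at h1
  · rw [Dl_apply] at h1
    have h2 : (Matrix.of fun j i => trace (Function.update Z i₀ (D' (Z i₀)) j * Y i)) =
        (1 : Matrix (Fin s) (Fin s) ℂ).updateRow i₀ fun i => f (D (Y i)) := by
      ext j i
      rw [of_apply, updateRow_apply]
      by_cases hj : j = i₀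
      · subst hj
        rw [Function.update_self, if_pos rfl, hZ, Function.update_self, ← hDD, hZ₀]
      · rw [Function.update_of_ne hj, if_neg hj, hZ, Function.update_of_ne hj, hZf, hφ, one_apply]
    rw [h2, det_upd] at h1
    exact hf2 h1
  · intro j _ hj
    rw [Dl_apply]
    refine det_eq_zero_of_row_eq_zero i₀ fun i => ?_
    rw [of_apply, Function.update_of_ne hj.symm, hZ, Function.update_self, hZ₀, hfY]
  · intro h
    exact absurd (Finset.mem_univ _) h

/-- the Plücker coordinates of a rational subspace which is stable under a Hodge operator have weight zero -/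
theorem init {X : Fin s → Matrix ι ι ℂ} (hX : LinearIndependent ℂ X) (hXr : ∀ i, (X i).map star = X i)
    {h : Matrix ι ι ℂ} (hh : h.map star = -h) (hst : ∀ i, h * X i - X i * h ∈ Submodule.span ℂ (Set.range X))
    {c : Fin s → ℤ} {Z : Fin s → Matrix ι ι ℂ} (hZ : ∀ j, Z j * h - h * Z j = (c j : ℂ) • Z j) (hc : ∑ j, c j ≠ 0) :
    Dl X Z = 0 := by
  by_contra hne
  rw [Dl_apply] at hne
  set M : Matrix (Fin s) (Fin s) ℂ := Matrix.of fun j i => trace (Z j * X i) with hM
  have h1 : ∀ i, ∃ C : Fin s → ℂ, h * X i - X i * h = ∑ l, C l • X l := by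
    intro i
    obtain ⟨C, hC⟩ := (Submodule.mem_span_range_iff_exists_fun ℂ).1 (hst i)
    exact ⟨C, hC.symm⟩
  choose C hC using h1
  -- the conjugate
  have h2 : ∀ i l, star (C i l) = -C i l := by
    intro i
    have h3 : (h * X i - X i * h).map star = (∑ l, C i l • X l).map star := congrArg (fun Y : Matrix ι ι ℂ => Y.map star) (hC i)
    have e1 : (h * X i - X i * h).map star = -(h * X i - X i * h) := by
      have e2 : (h * X i).map star = h.map star * (X i).map star := by
        ext a b
        simp only [map_apply, mul_apply, star_sum, star_mul']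
      have e3 : (X i * h).map star = (X i).map star * h.map star := by
        ext a b
        simp only [map_apply, mul_apply, star_sum, star_mul']
      have e4 : (h * X i - X i * h).map star = (h * X i).map star - (X i * h).map star := by
        ext a b
        simp only [map_apply, Matrix.sub_apply, star_sub]
      rw [e4, e2, e3, hh, hXr, Matrix.neg_mul, Matrix.mul_neg]
      abel
    have e5 : (∑ l, C i l • X l).map star = ∑ l, star (C i l) • X l := by
      ext a b
      rw [map_apply, Matrix.sum_apply, star_sum, Matrix.sum_apply]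
      refine Finset.sum_congr rfl fun l _ => ?_
      rw [Matrix.smul_apply, Matrix.smul_apply, smul_eq_mul, star_mul', smul_eq_mul]
      congr 1
      conv_rhs => rw [← hXr l]
      rfl
    rw [e1, e5, hC i] at h3
    have h4 : ∑ l, (star (C i l) + C i l) • X l = 0 := by
      simp only [add_smul]
      rw [Finset.sum_add_distrib, ← h3, neg_add_cancel]
    have h5 := Fintype.linearIndependent_iff.1 hX _ h4
    intro l
    exact eq_neg_of_add_eq_zero_left (h5 l)
  -- the trace
  have h3 : M * (Matrix.of C)ᵀ = diagonal (fun j => (c j : ℂ)) * M := by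
    ext j i
    rw [mul_apply, diagonal_mul, hM]
    simp only [of_apply, transpose_apply]
    have e1 : trace (Z j * (h * X i - X i * h)) = trace ((Z j * h - h * Z j) * X i) := by
      rw [Matrix.mul_sub, Matrix.sub_mul, trace_sub, trace_sub, Matrix.mul_assoc, Matrix.mul_assoc h,
        trace_mul_comm h, Matrix.mul_assoc]
    rw [hC i, hZ j, Matrix.smul_mul, trace_smul, smul_eq_mul, Matrix.mul_sum, trace_sum] at e1
    rw [← e1]
    refine Finset.sum_congr rfl fun l _ => ?_
    rw [Matrix.mul_smul, trace_smul, smul_eq_mul, mul_comm]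
  have hu : IsUnit M.det := isUnit_iff_ne_zero.2 hne
  have h4 : (Matrix.of C)ᵀ = M⁻¹ * (diagonal (fun j => (c j : ℂ)) * M) := by
    rw [← h3, ← Matrix.mul_assoc, nonsing_inv_mul _ hu, Matrix.one_mul]
  have h5 : trace (Matrix.of C) = ∑ j, (c j : ℂ) := by
    rw [← trace_transpose, h4, trace_mul_comm, Matrix.mul_assoc, mul_nonsing_inv _ hu, Matrix.mul_one, trace_diagonal]
  have h6 : star (trace (Matrix.of C)) = -trace (Matrix.of C) := by
    rw [trace, star_sum, ← Finset.sum_neg_distrib]
    refine Finset.sum_congr rfl fun i _ => ?_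
    rw [diag_apply, of_apply, h2]
  rw [h5, ← Int.cast_sum] at h6
  have h7 : star (((∑ j, c j : ℤ)) : ℂ) = ((∑ j, c j : ℤ) : ℂ) := by simp
  rw [h7] at h6
  apply hc
  have h8 : ((∑ j, c j : ℤ) : ℂ) = 0 := by linear_combination (1 / 2 : ℂ) * h6
  exact_mod_cast h8

end Run7.h893.GH
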