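import Pool.Agent.Run7.h893.GH.Sum
import Pool.Agent.Run7.h893.DR.Norm
import Pool.Agent.Run7.h893.HO.Odd

/-!
# The relations between the periods
-/

set_option autoImplicit false
set_option linter.unusedSectionVars false

open Matrix

namespace Run7.h893.GH

open Pool.Agent.Y119.HZ (Jx pw Yt)
open Run7.h893.DR (Vp Vp_rat Vp_finite Vp_rank)
open Run7.h893.HO

variable {k : ℕ} {n : Fin k → ℕ}

/-- the generic block matrix -/
noncomputable def Mg (n : Fin k → ℕ) : Matrix (IS n) (IS n) (MvPolynomial (Jx n) ℚ) :=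
  Matrix.blockDiagonal' fun i => Matrix.of fun a b => MvPolynomial.X ⟨i, some (a, b)⟩

theorem Mg_deg (x y : IS n) : (Mg n x y).totalDegree ≤ 1 := by
  obtain ⟨i, a⟩ := x
  obtain ⟨j, b⟩ := y
  unfold Mg
  by_cases h : i = j
  · subst h
    rw [blockDiagonal'_apply_eq, of_apply]
    exact (MvPolynomial.totalDegree_X _).le
  · rw [blockDiagonal'_apply_ne (fun i => (Matrix.of fun a b => MvPolynomial.X ⟨i, some (a, b)⟩ :
      Matrix (Fin (n i)) (Fin (n i)) (MvPolynomial (Jx n) ℚ))) a b h, MvPolynomial.totalDegree_zero]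
    exact Nat.zero_le _

theorem Mg_eval (l : Fin k → ℂ) (Y : ∀ i, Matrix (Fin (n i)) (Fin (n i)) ℂ) (x y : IS n) :
    MvPolynomial.aeval (pw l Y) (Mg n x y) = Matrix.blockDiagonal' Y x y := by
  obtain ⟨i, a⟩ := x
  obtain ⟨j, b⟩ := y
  unfold Mg
  by_cases h : i = j
  · subst h
    rw [blockDiagonal'_apply_eq, of_apply, blockDiagonal'_apply_eq, MvPolynomial.aeval_X]
    rfl
  · rw [blockDiagonal'_apply_ne (fun i => (Matrix.of fun a b => MvPolynomial.X ⟨i, some (a, b)⟩ :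
      Matrix (Fin (n i)) (Fin (n i)) (MvPolynomial (Jx n) ℚ))) a b h, blockDiagonal'_apply_ne Y a b h, map_zero]

theorem td_sum {σ R ι : Type*} [CommSemiring R] (S : Finset ι) {p : ι → MvPolynomial σ R} {d : ℕ}
    (h : ∀ i ∈ S, (p i).totalDegree ≤ d) : (∑ i ∈ S, p i).totalDegree ≤ d :=
  (MvPolynomial.totalDegree_finsetSum _ _).trans (Finset.sup_le h)

theorem td_mul {σ R : Type*} [CommSemiring R] {p q : MvPolynomial σ R} {a b : ℕ}
    (hp : p.totalDegree ≤ a) (hq : q.totalDegree ≤ b) : (p * q).totalDegree ≤ a + b :=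
  (MvPolynomial.totalDegree_mul _ _).trans (add_le_add hp hq)

/-- the polynomial of a determinant -/
theorem poly_exists {s : ℕ} (X : Fin s → Matrix (IS n) (IS n) ℚ) (A : Matrix (IS n) (IS n) ℚ) (U U' : Fin s → IS n → ℚ) :
    ∃ P : MvPolynomial (Jx n) ℂ, P.totalDegree ≤ 2 * s ∧ (∀ m, P.coeff m ∈ Vp 1 0) ∧
      ∀ (l : Fin k → ℂ) (Y : ∀ i, Matrix (Fin (n i)) (Fin (n i)) ℂ), MvPolynomial.aeval (pw l Y) P =
        det (Matrix.of fun j i => (cv (U j) ᵥ* Matrix.blockDiagonal' Y) ⬝ᵥ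
          ((cq (X i) * cq A) *ᵥ (cv (U' j) ᵥ* Matrix.blockDiagonal' Y))) := by
  let M : Matrix (Fin s) (Fin s) (MvPolynomial (Jx n) ℚ) := Matrix.of fun j i =>
    ∑ x, (∑ z, MvPolynomial.C (U j z) * Mg n z x) * ∑ y, MvPolynomial.C ((X i * A) x y) *
      ∑ z, MvPolynomial.C (U' j z) * Mg n z y
  have hM : ∀ j i, (M j i).totalDegree ≤ 2 := by
    intro j i
    have h1 : ∀ (u : IS n → ℚ) x, (∑ z, MvPolynomial.C (u z) * Mg n z x).totalDegree ≤ 1 := by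
      intro u x
      refine td_sum _ fun z _ => (td_mul (a := 0) (b := 1) ?_ (Mg_deg _ _)).trans (by norm_num)
      rw [MvPolynomial.totalDegree_C]
    refine td_sum _ fun x _ => td_mul (a := 1) (b := 1) (h1 _ _) (td_sum _ fun y _ => ?_)
    refine (td_mul (a := 0) (b := 1) ?_ (h1 _ _)).trans (by norm_num)
    rw [MvPolynomial.totalDegree_C]
  refine ⟨MvPolynomial.map (algebraMap ℚ ℂ) M.det, ?_, fun m => ?_, fun l Y => ?_⟩
  · have hmap : (MvPolynomial.map (algebraMap ℚ ℂ) M.det).totalDegree ≤ M.det.totalDegree :=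
      Finset.sup_mono (MvPolynomial.support_map_subset _ _)
    refine hmap.trans ?_
    rw [det_apply']
    refine td_sum _ fun σ _ => ?_
    refine (td_mul (a := 0) (b := 2 * s) ?_ ?_).trans (by omega)
    · have h1 : (((Equiv.Perm.sign σ : ℤˣ) : ℤ) : MvPolynomial (Jx n) ℚ) =
          MvPolynomial.C (((Equiv.Perm.sign σ : ℤˣ) : ℤ) : ℚ) := by
        simp
      rw [h1, MvPolynomial.totalDegree_C]
    · refine (MvPolynomial.totalDegree_finsetProd _ _).trans ?_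
      refine (Finset.sum_le_sum fun i _ => hM (σ i) i).trans ?_
      rw [Finset.sum_const, Finset.card_univ, Fintype.card_fin, smul_eq_mul, mul_comm]
  · rw [MvPolynomial.coeff_map]
    exact Vp_rat 1 0 _
  · rw [MvPolynomial.aeval_map_algebraMap, AlgHom.map_det]
    congr 1
    ext j i
    rw [AlgHom.mapMatrix_apply, map_apply, of_apply]
    show MvPolynomial.aeval (pw l Y) (M j i) = _
    have h1 : ∀ (u : IS n → ℚ) x, MvPolynomial.aeval (pw l Y) (∑ z, MvPolynomial.C (u z) * Mg n z x) =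
        (cv u ᵥ* Matrix.blockDiagonal' Y) x := by
      intro u x
      rw [map_sum]
      refine Finset.sum_congr rfl fun z _ => ?_
      rw [map_mul, MvPolynomial.aeval_C, Mg_eval]
      rfl
    show MvPolynomial.aeval (pw l Y) (∑ x, (∑ z, MvPolynomial.C (U j z) * Mg n z x) * ∑ y, MvPolynomial.C ((X i * A) x y) *
      ∑ z, MvPolynomial.C (U' j z) * Mg n z y) = _
    rw [map_sum]
    refine Finset.sum_congr rfl fun x _ => ?_
    rw [map_mul, h1, map_sum]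
    congr 1
    rw [← cq_mul]
    refine Finset.sum_congr rfl fun y _ => ?_
    rw [map_mul, h1, MvPolynomial.aeval_C]
    rfl

variable {Q : Fin k → Polynomial ℚ} {J0 : ∀ i, Matrix (Fin (n i)) (Fin (n i)) ℂ} {B : ∀ i, ℂ → Matrix (Fin (n i)) (Fin (n i)) ℂ}

/-- isometries of the rational form give isometries of the form on the solutions -/
theorem iso_J {m : ℕ} {J Ω g A : Matrix (Fin m) (Fin m) ℂ} {κ : ℂ} (hJ : J.det ≠ 0) (hΩ : Ω.det ≠ 0) (hκ : κ ≠ 0)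
    (hA : Ω * A * Ωᵀ = κ • J⁻¹) (hg : g * A * gᵀ = A) :
    (Ω * g * Ω⁻¹)ᵀ * J * (Ω * g * Ω⁻¹) = J := by
  have hJu : IsUnit J.det := isUnit_iff_ne_zero.2 hJ
  have hΩu : IsUnit Ω.det := isUnit_iff_ne_zero.2 hΩ
  have hΩt : IsUnit Ωᵀ.det := by rw [det_transpose]; exact hΩu
  set h := Ω * g * Ω⁻¹ with hh
  have h1 : h * J⁻¹ * hᵀ = J⁻¹ := by
    have h2 : κ • (h * J⁻¹ * hᵀ) = κ • J⁻¹ := by
      rw [← hA, hh, transpose_mul, transpose_mul, transpose_nonsing_inv]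
      calc κ • (Ω * g * Ω⁻¹ * J⁻¹ * ((Ωᵀ)⁻¹ * (gᵀ * Ωᵀ))) = Ω * g * Ω⁻¹ * (κ • J⁻¹) * ((Ωᵀ)⁻¹ * (gᵀ * Ωᵀ)) := by
            rw [Matrix.mul_smul, Matrix.smul_mul]
        _ = Ω * g * (Ω⁻¹ * Ω) * A * (Ωᵀ * (Ωᵀ)⁻¹) * (gᵀ * Ωᵀ) := by
            rw [← hA]
            simp only [Matrix.mul_assoc]
        _ = Ω * (g * A * gᵀ) * Ωᵀ := by
            rw [nonsing_inv_mul _ hΩu, mul_nonsing_inv _ hΩt, Matrix.mul_one, Matrix.mul_one]
            simp only [Matrix.mul_assoc]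
        _ = _ := by rw [hg]
    have h3 := congrArg (fun Z => κ⁻¹ • Z) h2
    simp only [smul_smul, inv_mul_cancel₀ hκ, one_smul] at h3
    exact h3
  have h4 : (h * J⁻¹) * (hᵀ * J) = 1 := by
    rw [← Matrix.mul_assoc, h1, nonsing_inv_mul _ hJu]
  have h5 := mul_eq_one_comm.1 h4
  have h6 : hᵀ * J * h * J⁻¹ = 1 := by
    rw [Matrix.mul_assoc (hᵀ * J)]
    exact h5
  calc hᵀ * J * h = hᵀ * J * h * (J⁻¹ * J) := by rw [nonsing_inv_mul _ hJu, Matrix.mul_one]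
    _ = (hᵀ * J * h * J⁻¹) * J := by simp only [Matrix.mul_assoc]
    _ = J := by rw [h6, Matrix.one_mul]

theorem rel_of (hQ : ∀ i, Fam (n i) (Q i) (J0 i) (B i)) {A : ∀ i, Matrix (Fin (n i)) (Fin (n i)) ℚ}
    {Ω : ∀ i, Matrix (Fin (n i)) (Fin (n i)) ℂ} (hΩ : ∀ i, (Ω i).det ≠ 0) {κ : Fin k → ℂ} (hκ : ∀ i, κ i ≠ 0)
    (hA : ∀ i, Ω i * cq (A i) * (Ω i)ᵀ = κ i • (J0 i)⁻¹) {t : Fin k → ℕ} (ht : ∀ i, 2 ≤ t i)
    (hno : ¬ ∃ P : MvPolynomial (Jx n) ℂ,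
      P.totalDegree ≤ 2 * (Fintype.card (IS n) * Fintype.card (IS n)) ∧ (∀ m, P.coeff m ∈ Vp 1 0) ∧
      MvPolynomial.aeval (pw (fun i => ((Real.log (t i) : ℝ) : ℂ)) fun i => Yt (n i) (Q i) (t i) * Ω i) P = 0 ∧
      ∃ (l : Fin k → ℂ) (g : ∀ i, Matrix (Fin (n i)) (Fin (n i)) ℂ),
        (∀ i, (g i).transpose * B i (((1 / (t i : ℝ) : ℝ)) : ℂ) * g i = J0 i) ∧
        MvPolynomial.aeval (pw l fun i => g i * Ω i) P ≠ 0) :
    Rel (Matrix.blockDiagonal' A) (Matrix.blockDiagonal' fun i => Yt (n i) (Q i) (t i) * Ω i)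
      (GG (Sigma.fst : IS n → Fin k) (Matrix.blockDiagonal' A)) := by
  intro s hs X U U' h0 g hg
  obtain ⟨P, hP1, hP2, hP3⟩ := poly_exists X (Matrix.blockDiagonal' A) U U'
  obtain ⟨hgB, hgA⟩ := hg
  let g' : ∀ i, Matrix (Fin (n i)) (Fin (n i)) ℂ := fun i => Matrix.of fun a b => g ⟨i, a⟩ ⟨i, b⟩
  have hgg : g = Matrix.blockDiagonal' g' := by
    ext ⟨i, a⟩ ⟨j, b⟩
    by_cases h : i = j
    · subst h
      rw [blockDiagonal'_apply_eq]
      rfl
    · rw [blockDiagonal'_apply_ne g' a b h]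
      exact hgB _ _ h
  have hgi : ∀ i, g' i * cq (A i) * (g' i)ᵀ = cq (A i) := by
    intro i
    rw [hgg, cq_bd, blockDiagonal'_transpose, ← blockDiagonal'_mul, ← blockDiagonal'_mul] at hgA
    have h1 := Matrix.blockDiagonal'_injective hgA
    exact congrFun h1 i
  by_contra hne
  apply hno
  refine ⟨P, hP1.trans (Nat.mul_le_mul_left _ hs), hP2, ?_, fun i => ((Real.log (t i) : ℝ) : ℂ),
    fun i => Yt (n i) (Q i) (t i) * (Ω i * g' i * (Ω i)⁻¹), fun i => ?_, ?_⟩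
  · rw [hP3]
    exact h0
  · have h1 := iso_J (hQ i).det (hΩ i) (hκ i) (hA i) (hgi i)
    have h2 := (hQ i).Yt_form (ht i)
    rw [transpose_mul]
    calc (Ω i * g' i * (Ω i)⁻¹)ᵀ * (Yt (n i) (Q i) (t i))ᵀ * B i (((1 / (t i : ℝ) : ℝ)) : ℂ) *
          (Yt (n i) (Q i) (t i) * (Ω i * g' i * (Ω i)⁻¹)) =
        (Ω i * g' i * (Ω i)⁻¹)ᵀ * ((Yt (n i) (Q i) (t i))ᵀ * B i (((1 / (t i : ℝ) : ℝ)) : ℂ) * Yt (n i) (Q i) (t i)) *
          (Ω i * g' i * (Ω i)⁻¹) := by simp only [Matrix.mul_assoc]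
      _ = _ := by rw [h2, h1]
  · rw [hP3]
    have h1 : (Matrix.blockDiagonal' fun i => Yt (n i) (Q i) (t i) * (Ω i * g' i * (Ω i)⁻¹) * Ω i) =
        (Matrix.blockDiagonal' fun i => Yt (n i) (Q i) (t i) * Ω i) * g := by
      rw [hgg, ← blockDiagonal'_mul]
      congr 1
      funext i
      calc Yt (n i) (Q i) (t i) * (Ω i * g' i * (Ω i)⁻¹) * Ω i = Yt (n i) (Q i) (t i) * (Ω i * g' i * ((Ω i)⁻¹ * Ω i)) := by
            simp only [Matrix.mul_assoc]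
        _ = _ := by
          rw [nonsing_inv_mul _ (isUnit_iff_ne_zero.2 (hΩ i)), Matrix.mul_one]
          simp only [Matrix.mul_assoc]
    rw [h1]
    simp only [← vecMul_vecMul]
    exact hne

end Run7.h893.GH
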