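import Pool.Agent.Run7.h893.GH.Lie

/-!
# Root vectors of sums of orthogonal and symplectic Lie algebras
-/

set_option autoImplicit false
set_option linter.unusedSectionVars false

open Matrix

namespace Run7.h893.GH

variable {ι : Type} [Fintype ι] [DecidableEq ι] {β : Type}

theorem sg (i j k l : ι) : (Matrix.single i j (1 : ℂ)) * Matrix.single k l 1 = if j = k then Matrix.single i l 1 else 0 := by
  split_ifs with h
  · subst h
    rw [Matrix.single_mul_single_same, one_mul]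
  · exact Matrix.single_mul_single_of_ne _ _ _ _ h _

/-- combinatorial data of the form in a Hodge basis -/
structure RD (bl : ι → β) (ht : ι → ℤ) (rev : ι → ι) (γ ε : ι → ℂ) : Prop where
  rr : ∀ x, rev (rev x) = x
  rbl : ∀ x, bl (rev x) = bl x
  hrev : ∀ x, ht (rev x) = -ht x
  hinj : ∀ x y, bl x = bl y → ht x = ht y → x = y
  γ0 : ∀ x, γ x ≠ 0
  γr : ∀ x, γ (rev x) = ε x * γ x
  εbl : ∀ x y, bl x = bl y → ε x = ε y
  cases : ∀ x, ε x = -1 ∨ (ε x = 1 ∧ ∃ c, bl c = bl x ∧ rev c = c)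

/-- the form -/
def Ga (rev : ι → ι) (γ : ι → ℂ) : Matrix ι ι ℂ := Matrix.of fun x y => if y = rev x then γ x else 0

/-- root vectors -/
noncomputable def Rv (rev : ι → ι) (γ : ι → ℂ) (x y : ι) : Matrix ι ι ℂ :=
  Matrix.single x y 1 - (γ y / γ x) • Matrix.single (rev y) (rev x) 1

/-- block supported matrices -/
def BS (bl : ι → β) (M : Matrix ι ι ℂ) : Prop := ∀ x y, bl x ≠ bl y → M x y = 0

theorem BS.add {bl : ι → β} {M N : Matrix ι ι ℂ} (hM : BS bl M) (hN : BS bl N) : BS bl (M + N) := fun x y h => by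
  rw [Matrix.add_apply, hM x y h, hN x y h, add_zero]

theorem BS.smul {bl : ι → β} {M : Matrix ι ι ℂ} (c : ℂ) (hM : BS bl M) : BS bl (c • M) := fun x y h => by
  rw [Matrix.smul_apply, hM x y h, smul_zero]

theorem BS.mul {bl : ι → β} {M N : Matrix ι ι ℂ} (hM : BS bl M) (hN : BS bl N) : BS bl (M * N) := fun x y h => by
  rw [mul_apply]
  refine Finset.sum_eq_zero fun z _ => ?_
  by_cases h1 : bl x = bl z
  · rw [hN z y (fun h2 => h (h1.trans h2)), mul_zero]
  · rw [hM x z h1, zero_mul]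

theorem BS.one {bl : ι → β} : BS bl (1 : Matrix ι ι ℂ) := fun x y h => by
  rw [one_apply, if_neg (fun h1 => h (by rw [h1]))]

theorem BS.single {bl : ι → β} {x y : ι} (h : bl x = bl y) : BS bl (Matrix.single x y (1 : ℂ)) := fun u v huv => by
  rw [Matrix.single_apply, if_neg]
  rintro ⟨rfl, rfl⟩
  exact huv h

section

variable {bl : ι → β} {ht : ι → ℤ} {rev : ι → ι} {γ ε : ι → ℂ}

theorem RD.BS_Rv (h : RD bl ht rev γ ε) {x y : ι} (hxy : bl x = bl y) : BS bl (Rv rev γ x y) := by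
  unfold Rv
  rw [sub_eq_add_neg, ← neg_smul]
  exact (BS.single hxy).add ((BS.single (by rw [h.rbl, h.rbl, hxy])).smul _)

theorem single_Ga (x y : ι) : Matrix.single x y (1 : ℂ) * Ga rev γ = γ y • Matrix.single x (rev y) 1 := by
  ext u v
  rw [mul_apply, Finset.sum_eq_single y]
  · unfold Ga
    rw [Matrix.single_apply, of_apply, Matrix.smul_apply, Matrix.single_apply, smul_eq_mul]
    by_cases h1 : x = u
    · by_cases h2 : v = rev y
      · rw [if_pos ⟨h1, rfl⟩, if_pos h2, if_pos ⟨h1, h2.symm⟩]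
        ring
      · rw [if_neg h2, mul_zero, if_neg (fun h => h2 h.2.symm), mul_zero]
    · rw [if_neg (fun h => h1 h.1), zero_mul, if_neg (fun h => h1 h.1), mul_zero]
  · intro w _ hw
    rw [Matrix.single_apply, if_neg (fun h => hw h.2.symm), zero_mul]
  · intro h
    exact absurd (Finset.mem_univ _) h

theorem RD.Ga_single (h : RD bl ht rev γ ε) (x y : ι) : Ga rev γ * Matrix.single x y (1 : ℂ) =
    γ (rev x) • Matrix.single (rev x) y 1 := by
  ext u v
  rw [mul_apply, Finset.sum_eq_single x]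
  · unfold Ga
    rw [Matrix.single_apply, of_apply, Matrix.smul_apply, Matrix.single_apply, smul_eq_mul]
    have e1 : (x = rev u) = (rev x = u) := propext ⟨fun h1 => by rw [h1, h.rr], fun h1 => by rw [← h1, h.rr]⟩
    simp only [e1]
    by_cases h1 : rev x = u
    · subst h1
      by_cases h2 : y = v
      · simp [h2]
      · simp [h2]
    · rw [if_neg h1, zero_mul, if_neg (fun h => h1 h.1), mul_zero]
  · intro w _ hw
    rw [Matrix.single_apply, if_neg (fun h => hw h.1.symm), mul_zero]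
  · intro h
    exact absurd (Finset.mem_univ _) h

theorem RD.Rv_form (h : RD bl ht rev γ ε) {x y : ι} (hxy : bl x = bl y) :
    Rv rev γ x y * Ga rev γ + Ga rev γ * (Rv rev γ x y)ᵀ = 0 := by
  have hx := h.γ0 x
  have hε := h.εbl x y hxy
  unfold Rv
  rw [transpose_sub, transpose_smul, transpose_single, transpose_single, Matrix.sub_mul, Matrix.mul_sub, Matrix.smul_mul,
    Matrix.mul_smul, single_Ga, single_Ga, h.Ga_single, h.Ga_single, smul_smul, smul_smul, h.rr, h.γr, h.γr, ← hε,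
    div_mul_cancel₀ _ hx]
  have h1 : γ y / γ x * (ε x * γ x) = ε x * γ y := by field_simp
  rw [h1]
  abel

theorem RD.Rv_wt (h : RD bl ht rev γ ε) (x y : ι) :
    diagonal (fun x => (ht x : ℂ)) * Rv rev γ x y - Rv rev γ x y * diagonal (fun x => (ht x : ℂ)) =
      ((ht x - ht y : ℤ) : ℂ) • Rv rev γ x y := by
  ext u v
  rw [Matrix.sub_apply, diagonal_mul, mul_diagonal, Matrix.smul_apply, smul_eq_mul]
  unfold Rv
  rw [Matrix.sub_apply, Matrix.smul_apply, Matrix.single_apply, Matrix.single_apply, smul_eq_mul]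
  by_cases h1 : x = u ∧ y = v
  · obtain ⟨rfl, rfl⟩ := h1
    rw [if_pos ⟨rfl, rfl⟩]
    by_cases h2 : rev y = x ∧ rev x = y
    · obtain ⟨h3, h4⟩ := h2
      rw [if_pos ⟨h3, h4⟩]
      push_cast
      ring
    · rw [if_neg h2]
      push_cast
      ring
  · rw [if_neg h1]
    by_cases h2 : rev y = u ∧ rev x = v
    · obtain ⟨rfl, rfl⟩ := h2
      rw [if_pos ⟨rfl, rfl⟩, h.hrev, h.hrev]
      push_cast
      ring
    · rw [if_neg h2]
      ring

theorem RD.Rv_cube (h : RD bl ht rev γ ε) {x y : ι} (hxy : ht x ≠ ht y) : Rv rev γ x y * Rv rev γ x y * Rv rev γ x y = 0 := by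
  have h1 : ¬ y = x := fun h => hxy (by rw [h])
  have h2 : ¬ rev x = rev y := fun h' => h1 (by rw [← h.rr x, h', h.rr])
  have h3 : ¬ (rev x = x ∧ y = rev y) := by
    rintro ⟨h4, h5⟩
    have h6 := h.hrev x
    have h7 := h.hrev y
    rw [h4] at h6
    rw [← h5] at h7
    omega
  unfold Rv
  set κ := γ y / γ x
  set p : Matrix ι ι ℂ := Matrix.single x y 1 with hp
  set q : Matrix ι ι ℂ := Matrix.single (rev y) (rev x) 1 with hq
  have pp : p * p = 0 := by rw [hp, sg, if_neg h1]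
  have qq : q * q = 0 := by rw [hq, sg, if_neg h2]
  have pqp : p * q * p = 0 := by
    rw [hp, hq, sg]
    by_cases h4 : y = rev y
    · rw [if_pos h4, sg, if_neg (fun h5 => h3 ⟨h5, h4⟩)]
    · rw [if_neg h4, Matrix.zero_mul]
  have qpq : q * p * q = 0 := by
    rw [hp, hq, sg]
    by_cases h4 : rev x = x
    · rw [if_pos h4, sg, if_neg (fun h5 => h3 ⟨h4, h5⟩)]
    · rw [if_neg h4, Matrix.zero_mul]
  have h4 : (p - κ • q) * (p - κ • q) = -κ • (p * q + q * p) := by
    rw [Matrix.sub_mul, Matrix.mul_sub, Matrix.mul_sub, Matrix.smul_mul, Matrix.smul_mul, Matrix.mul_smul, Matrix.mul_smul,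
      pp, qq]
    module
  rw [h4, Matrix.smul_mul, Matrix.add_mul, Matrix.mul_sub, Matrix.mul_sub, Matrix.mul_smul, Matrix.mul_smul,
    Matrix.mul_assoc q p p, pp, Matrix.mul_zero, Matrix.mul_assoc p q q, qq, Matrix.mul_zero, pqp, qpq]
  simp

/-- the sum of the root vectors -/
theorem RD.sum_Rv (h : RD bl ht rev γ ε) {Z : Matrix ι ι ℂ} (hb : BS bl Z) (hZ : Z * Ga rev γ + Ga rev γ * Zᵀ = 0) :
    (2 : ℂ) • Z = ∑ x, ∑ y, Z x y • Rv rev γ x y := by
  ext u v
  rw [Matrix.smul_apply, Matrix.sum_apply]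
  simp only [Matrix.sum_apply, Matrix.smul_apply]
  have e1 : ∀ x y, Z x y • Rv rev γ x y u v = (if x = u ∧ y = v then Z x y else 0) -
      (if x = rev v ∧ y = rev u then Z x y * (γ y / γ x) else 0) := by
    intro x y
    unfold Rv
    rw [Matrix.sub_apply, Matrix.smul_apply, Matrix.single_apply, Matrix.single_apply, smul_eq_mul, smul_eq_mul]
    have q1 : (rev y = u ∧ rev x = v) = (x = rev v ∧ y = rev u) := by
      refine propext ⟨fun h' => ⟨by rw [← h'.2, h.rr], by rw [← h'.1, h.rr]⟩, fun h' => ⟨by rw [h'.2, h.rr], by rw [h'.1, h.rr]⟩⟩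
    simp only [q1]
    split_ifs <;> ring
  simp only [e1, Finset.sum_sub_distrib]
  have e2 : ∀ (a b : ι) (f : ι → ι → ℂ), ∑ i, ∑ j, (if i = a ∧ j = b then f i j else 0) = f a b := by
    intro a b f
    rw [Finset.sum_eq_single a, Finset.sum_eq_single b]
    · rw [if_pos ⟨rfl, rfl⟩]
    · intro j _ hj
      rw [if_neg (fun h => hj h.2)]
    · intro h
      exact absurd (Finset.mem_univ _) h
    · intro i _ hi
      refine Finset.sum_eq_zero fun j _ => ?_
      rw [if_neg (fun h => hi h.1)]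
    · intro h
      exact absurd (Finset.mem_univ _) h
  rw [e2 u v (fun i j => Z i j), e2 (rev v) (rev u) (fun i j => Z i j * (γ j / γ i)), smul_eq_mul]
  -- the form
  have h1 := congrFun (congrFun hZ u) (rev v)
  rw [Matrix.add_apply, Matrix.zero_apply] at h1
  have h2 : (Z * Ga rev γ) u (rev v) = Z u v * γ v := by
    rw [mul_apply, Finset.sum_eq_single v]
    · unfold Ga
      rw [of_apply, if_pos rfl]
    · intro w _ hw
      unfold Ga
      rw [of_apply, if_neg, mul_zero]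
      intro h3
      exact hw (by rw [← h.rr w, ← h3, h.rr])
    · intro h
      exact absurd (Finset.mem_univ _) h
  have h3 : (Ga rev γ * Zᵀ) u (rev v) = γ u * Z (rev v) (rev u) := by
    rw [mul_apply, Finset.sum_eq_single (rev u)]
    · unfold Ga
      rw [of_apply, if_pos rfl, transpose_apply]
    · intro w _ hw
      unfold Ga
      rw [of_apply, if_neg hw, zero_mul]
    · intro h
      exact absurd (Finset.mem_univ _) h
  rw [h2, h3] at h1
  by_cases hbl : bl u = bl v
  · have hε := h.εbl u v hbl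
    rw [h.γr, h.γr, hε]
    have hu := h.γ0 u
    have hv := h.γ0 v
    have hε0 : ε v ≠ 0 := by
      rcases h.cases v with h4 | ⟨h4, -⟩ <;> rw [h4] <;> norm_num
    have h4 : ε v * γ u / (ε v * γ v) = γ u / γ v := by field_simp
    rw [h4]
    have h5 : Z (rev v) (rev u) * γ u = -(Z u v * γ v) := by linear_combination h1
    have h6 : Z (rev v) (rev u) * (γ u / γ v) = -Z u v := by
      rw [mul_div_assoc', h5]
      field_simp
    rw [h6]
    ring
  · have h4 : Z u v = 0 := hb u v hbl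
    have h5 : Z (rev v) (rev u) = 0 := hb _ _ (by rw [h.rbl, h.rbl]; exact fun h => hbl h.symm)
    rw [h4, h5]
    ring

variable {A : Matrix ι ι ℚ} {E P : Matrix ι ι ℂ} {r : ι → ℂ} {𝓤 : ℤ → Set (ι → ℚ)} {𝔪 : Submodule ℚ (Matrix ι ι ℚ)}

/-- the group -/
def GG (bl : ι → β) (A : Matrix ι ι ℚ) : Set (Matrix ι ι ℂ) := {g | BS bl g ∧ g * cq A * gᵀ = cq A}

theorem GG_star {g : Matrix ι ι ℂ} (hg : g ∈ GG bl A) : g.map star ∈ GG bl A := by
  refine ⟨fun x y h => by rw [map_apply, hg.1 x y h, star_zero], ?_⟩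
  have h1 : (g.map star)ᵀ = (gᵀ).map star := rfl
  have h2 := congrArg (fun M => M.map star) hg.2
  simp only [map_star_mul, cq_star] at h2
  rw [h1]
  exact h2

/-- **A rational Lie algebra which contains the Hodge operator contains the orthogonal and symplectic Lie algebras.** -/
theorem generic (h : HD A E P ht rev r 𝓤) (hR : RD bl ht rev γ ε) (hE : BS bl E) (hEi : BS bl E⁻¹)
    (hΓ : E * cq A * Eᵀ = Ga rev γ) (hr : ∀ x, r x ≠ 0) (hRel : Rel A P (GG bl A))
    (hbr : ∀ X ∈ 𝔪, ∀ Y ∈ 𝔪, X * Y - Y * X ∈ 𝔪) (hh : hop E ht ∈ mC 𝔪) {X : Matrix ι ι ℚ} (hXb : BS bl (cq X))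
    (hX : X * A + A * Xᵀ = 0) : X ∈ 𝔪 := by
  have hu := h.unit
  have hroot : ∀ x y, bl x = bl y → x ≠ y → (∀ X ∈ mC 𝔪, adl (E⁻¹ * Rv rev γ x y * E) X ∈ mC 𝔪) ∧
      E⁻¹ * Rv rev γ x y * E ∈ mC 𝔪 := by
    intro x y hxy hne
    have hne' : ht x ≠ ht y := fun h' => hne (hR.hinj x y hxy h')
    have hμ : ((ht x - ht y : ℤ) : ℂ) ≠ 0 := by
      rw [Int.cast_ne_zero]
      omega
    refine h.root (G := GG bl A) hr hR.rr (fun g hg => hg.2) (fun g hg => GG_star hg) hRel hbr hh (hR.Rv_cube hne') hμ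
      (hR.Rv_wt x y) fun t => ⟨?_, ?_⟩
    · refine (hEi.mul ?_).mul hE
      unfold ex3
      exact (BS.one.add ((hR.BS_Rv hxy).smul _)).add (((hR.BS_Rv hxy).mul (hR.BS_Rv hxy)).smul _)
    · set R := Rv rev γ x y with hRd
      have h1 : R * Ga rev γ = -(Ga rev γ * Rᵀ) := eq_neg_of_add_eq_zero_left (hR.Rv_form hxy)
      have h2 : ex3 R t * Ga rev γ = Ga rev γ * (ex3 R (-t))ᵀ := by
        unfold ex3
        rw [transpose_add, transpose_add, transpose_smul, transpose_smul, transpose_mul, transpose_one, Matrix.add_mul,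
          Matrix.add_mul, Matrix.mul_add, Matrix.mul_add, Matrix.smul_mul, Matrix.smul_mul, Matrix.mul_smul,
          Matrix.mul_smul, Matrix.one_mul, Matrix.mul_one, Matrix.mul_assoc R R, h1, Matrix.mul_neg, ← Matrix.mul_assoc R,
          h1, Matrix.neg_mul, Matrix.mul_assoc]
        module
      have h3 : ex3 R t * Ga rev γ * (ex3 R t)ᵀ = Ga rev γ := by
        rw [h2, Matrix.mul_assoc, ← transpose_mul, ex3_mul (hR.Rv_cube hne'), transpose_one, Matrix.mul_one]
      rw [transpose_mul, transpose_mul]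
      have hET : IsUnit Eᵀ.det := by
        rw [det_transpose]
        exact hu
      have h4 : cq A = E⁻¹ * Ga rev γ * (E⁻¹)ᵀ := by
        rw [← hΓ, transpose_nonsing_inv]
        calc cq A = (E⁻¹ * E) * cq A * (Eᵀ * (Eᵀ)⁻¹) := by
              rw [nonsing_inv_mul _ hu, mul_nonsing_inv _ hET, Matrix.one_mul, Matrix.mul_one]
          _ = _ := by simp only [Matrix.mul_assoc]
      calc E⁻¹ * ex3 R t * E * cq A * (Eᵀ * ((ex3 R t)ᵀ * (E⁻¹)ᵀ)) =
          E⁻¹ * (ex3 R t * (E * cq A * Eᵀ) * (ex3 R t)ᵀ) * (E⁻¹)ᵀ := by simp only [Matrix.mul_assoc]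
        _ = _ := by rw [hΓ, h3, ← h4]
  -- the diagonal elements
  have hbrk : ∀ x y, bl x = bl y → x ≠ y →
      E⁻¹ * (Rv rev γ x y * Rv rev γ y x - Rv rev γ y x * Rv rev γ x y) * E ∈ mC 𝔪 := by
    intro x y hxy hne
    have h1 := (hroot x y hxy hne).1 _ (hroot y x hxy.symm hne.symm).2
    rw [adl_apply] at h1
    have h2 : E⁻¹ * Rv rev γ x y * E * (E⁻¹ * Rv rev γ y x * E) - E⁻¹ * Rv rev γ y x * E * (E⁻¹ * Rv rev γ x y * E) =
        E⁻¹ * (Rv rev γ x y * Rv rev γ y x - Rv rev γ y x * Rv rev γ x y) * E := by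
      calc E⁻¹ * Rv rev γ x y * E * (E⁻¹ * Rv rev γ y x * E) - E⁻¹ * Rv rev γ y x * E * (E⁻¹ * Rv rev γ x y * E) =
          E⁻¹ * (Rv rev γ x y * (E * E⁻¹) * Rv rev γ y x) * E - E⁻¹ * (Rv rev γ y x * (E * E⁻¹) * Rv rev γ x y) * E := by
            simp only [Matrix.mul_assoc]
        _ = _ := by rw [mul_nonsing_inv _ hu, Matrix.mul_one, Matrix.mul_one, Matrix.mul_sub, Matrix.sub_mul]
    rwa [h2] at h1
  have hdiag : ∀ x, E⁻¹ * Rv rev γ x x * E ∈ mC 𝔪 := by
    intro x
    have hx := hR.γ0 x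
    rcases hR.cases x with hε | ⟨hε, c, hc, hcr⟩
    · -- the alternating case
      have hγ : γ (rev x) = -γ x := by rw [hR.γr, hε, neg_one_mul]
      have hne : x ≠ rev x := by
        intro h1
        rw [← h1] at hγ
        apply hx
        linear_combination (1 / 2 : ℂ) * hγ
      have h1 := hbrk x (rev x) (hR.rbl x).symm hne
      have e1 : Rv rev γ x (rev x) = (2 : ℂ) • Matrix.single x (rev x) 1 := by
        unfold Rv
        rw [hR.rr, hγ, neg_div, div_self hx]
        module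
      have e2 : Rv rev γ (rev x) x = (2 : ℂ) • Matrix.single (rev x) x 1 := by
        unfold Rv
        rw [hR.rr, hγ, div_neg, div_self hx]
        module
      have e3 : Rv rev γ x (rev x) * Rv rev γ (rev x) x - Rv rev γ (rev x) x * Rv rev γ x (rev x) =
          (4 : ℂ) • Rv rev γ x x := by
        rw [e1, e2]
        unfold Rv
        rw [div_self hx, one_smul, Matrix.smul_mul, Matrix.mul_smul, Matrix.smul_mul, Matrix.mul_smul, sg, sg, if_pos rfl,
          if_pos rfl]
        module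
      rw [e3, Matrix.mul_smul, Matrix.smul_mul] at h1
      exact (Submodule.smul_mem_iff _ (by norm_num)).1 h1
    · -- the symmetric case
      by_cases hxc : x = c
      · have e1 : Rv rev γ x x = 0 := by
          unfold Rv
          rw [hxc, hcr, div_self (by rw [← hxc]; exact hx), one_smul, sub_self]
        rw [e1, Matrix.mul_zero, Matrix.zero_mul]
        exact Submodule.zero_mem _
      · have hcx : ¬ c = x := fun h => hxc h.symm
        have hcrx : ¬ c = rev x := fun h' => hxc (by rw [← hR.rr x, ← h', hcr])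
        have hrxc : ¬ rev x = c := fun h' => hcrx h'.symm
        have hγc := hR.γ0 c
        have h1 := hbrk x c hc.symm hxc
        have e3 : Rv rev γ x c * Rv rev γ c x - Rv rev γ c x * Rv rev γ x c = Rv rev γ x x := by
          unfold Rv
          rw [hcr, div_self hx, one_smul]
          simp only [Matrix.sub_mul, Matrix.mul_sub, Matrix.smul_mul, Matrix.mul_smul, sg, if_true, if_neg hcx, if_neg hxc,
            if_neg hcrx, if_neg hrxc, smul_zero, sub_zero, zero_sub, smul_smul]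
          have e4 : γ c / γ x * (γ x / γ c) = 1 := by field_simp
          have e5 : γ x / γ c * (γ c / γ x) = 1 := by field_simp
          simp only [smul_sub, smul_neg, smul_smul, e4, e5, smul_zero, sub_zero, one_smul, neg_neg, zero_sub]
          abel
        rwa [e3] at h1
  have hall : ∀ x y, bl x = bl y → E⁻¹ * Rv rev γ x y * E ∈ mC 𝔪 := by
    intro x y hxy
    by_cases hne : x = y
    · rw [← hne]
      exact hdiag x
    · exact (hroot x y hxy hne).2
  -- the decomposition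
  apply mC_rat
  set Z := E * cq X * E⁻¹ with hZ
  have hZb : BS bl Z := (hE.mul hXb).mul hEi
  have hZf : Z * Ga rev γ + Ga rev γ * Zᵀ = 0 := by
    rw [← hΓ, hZ, transpose_mul, transpose_mul, transpose_nonsing_inv]
    have hET : IsUnit Eᵀ.det := by
      rw [det_transpose]
      exact hu
    have h1 : cq X * cq A + cq A * (cq X)ᵀ = 0 := by
      have h2 : (cq X)ᵀ = cq Xᵀ := rfl
      rw [h2, ← cq_mul, ← cq_mul, ← cq_add, hX, cq_zero]
    calc E * cq X * E⁻¹ * (E * cq A * Eᵀ) + E * cq A * Eᵀ * ((Eᵀ)⁻¹ * ((cq X)ᵀ * Eᵀ)) =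
        E * (cq X * (E⁻¹ * E) * cq A) * Eᵀ + E * (cq A * (Eᵀ * (Eᵀ)⁻¹) * (cq X)ᵀ) * Eᵀ := by simp only [Matrix.mul_assoc]
      _ = E * (cq X * cq A + cq A * (cq X)ᵀ) * Eᵀ := by
        rw [nonsing_inv_mul _ hu, mul_nonsing_inv _ hET, Matrix.mul_one, Matrix.mul_one, Matrix.mul_add, Matrix.add_mul]
      _ = 0 := by rw [h1, Matrix.mul_zero, Matrix.zero_mul]
  have h1 := hR.sum_Rv hZb hZf
  have h2 : cq X = (2 : ℂ)⁻¹ • ∑ x, ∑ y, Z x y • (E⁻¹ * Rv rev γ x y * E) := by
    have h3 : E⁻¹ * ((2 : ℂ) • Z) * E = ∑ x, ∑ y, Z x y • (E⁻¹ * Rv rev γ x y * E) := by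
      rw [h1]
      simp only [Matrix.mul_sum, Matrix.sum_mul, Matrix.mul_smul, Matrix.smul_mul]
    rw [← h3, Matrix.mul_smul, Matrix.smul_mul, smul_smul, inv_mul_cancel₀ two_ne_zero, one_smul, hZ]
    calc cq X = (E⁻¹ * E) * cq X * (E⁻¹ * E) := by rw [nonsing_inv_mul _ hu, Matrix.one_mul, Matrix.mul_one]
      _ = _ := by simp only [Matrix.mul_assoc]
  rw [h2]
  refine Submodule.smul_mem _ _ (Submodule.sum_mem _ fun x _ => Submodule.sum_mem _ fun y _ => ?_)
  by_cases hxy : bl x = bl y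
  · exact Submodule.smul_mem _ _ (hall x y hxy)
  · rw [hZb x y hxy, zero_smul]
    exact Submodule.zero_mem _

end

end Run7.h893.GH
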