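import Pool.Agent.Run7.h893.GH.Blk

/-!
# Sums of Hodge structures
-/

set_option autoImplicit false
set_option linter.unusedSectionVars false

open Matrix

namespace Run7.h893.GH

variable {k : ℕ} {n : Fin k → ℕ}

/-- the index set of the sum -/
abbrev IS (n : Fin k → ℕ) : Type := Σ i, Fin (n i)

/-- the embedding of the summands -/
def em {α : Type} [Zero α] (i : Fin k) (v : Fin (n i) → α) : IS n → α :=
  fun x => (Pi.single i v : ∀ j, Fin (n j) → α) x.1 x.2

theorem em_same {α : Type} [Zero α] (i : Fin k) (v : Fin (n i) → α) (a : Fin (n i)) : em i v ⟨i, a⟩ = v a := by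
  unfold em
  rw [Pi.single_eq_same]

theorem em_ne {α : Type} [Zero α] {i j : Fin k} (h : j ≠ i) (v : Fin (n i) → α) (a : Fin (n j)) : em i v ⟨j, a⟩ = 0 := by
  unfold em
  rw [Pi.single_eq_of_ne h]
  rfl

/-- the embedding as a linear map -/
def eml (i : Fin k) : (Fin (n i) → ℂ) →ₗ[ℂ] (IS n → ℂ) where
  toFun := em i
  map_add' := fun a b => by
    funext ⟨j, x⟩
    by_cases h : j = i
    · subst h
      simp [em_same]
    · simp [em_ne h]
  map_smul' := fun c a => by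
    funext ⟨j, x⟩
    by_cases h : j = i
    · subst h
      simp [em_same]
    · simp [em_ne h]

theorem eml_apply (i : Fin k) (v : Fin (n i) → ℂ) : eml i v = em i v := rfl

theorem bd_row {α : Type} [Zero α] (M : ∀ i, Matrix (Fin (n i)) (Fin (n i)) α) (i : Fin k) (a : Fin (n i)) :
    Matrix.blockDiagonal' M ⟨i, a⟩ = em i (M i a) := by
  funext ⟨j, b⟩
  by_cases h : j = i
  · subst h
    rw [blockDiagonal'_apply_eq, em_same]
  · rw [blockDiagonal'_apply_ne M a b (fun h' => h h'.symm), em_ne h]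

theorem em_vm (M : ∀ i, Matrix (Fin (n i)) (Fin (n i)) ℂ) (i : Fin k) (v : Fin (n i) → ℂ) :
    em i v ᵥ* Matrix.blockDiagonal' M = em i (v ᵥ* M i) := by
  have h1 : ∀ y, (em i v ᵥ* Matrix.blockDiagonal' M) y = ∑ a, v a * Matrix.blockDiagonal' M ⟨i, a⟩ y := by
    intro y
    rw [vecMul, dotProduct, Fintype.sum_sigma, Finset.sum_eq_single i]
    · simp only [em_same]
    · intro j _ hj
      simp only [em_ne hj, zero_mul, Finset.sum_const_zero]
    · intro h
      exact absurd (Finset.mem_univ _) h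
  funext ⟨j, b⟩
  rw [h1]
  by_cases h : j = i
  · subst h
    rw [em_same]
    simp only [blockDiagonal'_apply_eq]
    rfl
  · rw [em_ne h]
    refine Finset.sum_eq_zero fun a _ => ?_
    rw [blockDiagonal'_apply_ne M a b (fun h' => h h'.symm), mul_zero]

theorem cv_em (i : Fin k) (u : Fin (n i) → ℚ) : cv (em i u) = em i (cv u) := by
  funext ⟨j, b⟩
  by_cases h : j = i
  · subst h
    rw [em_same, cv, em_same, cv]
  · rw [em_ne h, cv, em_ne h, Rat.cast_zero]

theorem cq_bd (A : ∀ i, Matrix (Fin (n i)) (Fin (n i)) ℚ) :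
    cq (Matrix.blockDiagonal' A) = Matrix.blockDiagonal' fun i => cq (A i) := by
  unfold cq
  exact Matrix.blockDiagonal'_map A (fun x : ℚ => (x : ℂ)) Rat.cast_zero

theorem bd_det {K : Type} [Field K] {M : ∀ i, Matrix (Fin (n i)) (Fin (n i)) K} (h : ∀ i, (M i).det ≠ 0) :
    (Matrix.blockDiagonal' M).det ≠ 0 := by
  have h1 : Matrix.blockDiagonal' M * Matrix.blockDiagonal' (fun i => (M i)⁻¹) = 1 := by
    rw [← blockDiagonal'_mul]
    have h1 : (fun i => M i * (M i)⁻¹) = fun i => (1 : Matrix (Fin (n i)) (Fin (n i)) K) := by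
      funext i
      exact mul_nonsing_inv _ (isUnit_iff_ne_zero.2 (h i))
    rw [h1]
    exact blockDiagonal'_one
  intro h0
  have h2 := congrArg Matrix.det h1
  rw [det_mul, h0, zero_mul, det_one] at h2
  exact zero_ne_one h2

/-- the heights -/
def hts (n : Fin k → ℕ) (x : IS n) : ℤ := (n x.1 : ℤ) - 1 - 2 * (x.2 : ℕ)

/-- the involution -/
def rvs (x : IS n) : IS n := ⟨x.1, x.2.rev⟩

/-- rational vectors which give elements of the filtration -/
def Us (P : ∀ i, Matrix (Fin (n i)) (Fin (n i)) ℂ) (F : ∀ i, ℕ → Submodule ℂ (Fin (n i) → ℂ)) (q : ℤ) :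
    Set (IS n → ℚ) :=
  {U | ∃ (i : Fin k) (p : ℕ) (u : Fin (n i) → ℚ), q = 2 * (p : ℤ) - ((n i : ℤ) - 1) ∧ U = em i u ∧ cv u ᵥ* P i ∈ F i p}

variable {A : ∀ i, Matrix (Fin (n i)) (Fin (n i)) ℚ} {F : ∀ i, ℕ → Submodule ℂ (Fin (n i) → ℂ)}
  {P E : ∀ i, Matrix (Fin (n i)) (Fin (n i)) ℂ} {r γ : ∀ i, Fin (n i) → ℂ}

theorem bd_form (h : ∀ i, HB (n i) (A i) (F i) (P i) (E i) (r i) (γ i)) :
    Matrix.blockDiagonal' E * cq (Matrix.blockDiagonal' A) * (Matrix.blockDiagonal' E)ᵀ =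
      Ga rvs fun x : IS n => γ x.1 x.2 := by
  rw [cq_bd, blockDiagonal'_transpose, ← blockDiagonal'_mul, ← blockDiagonal'_mul]
  have h1 : (fun i => E i * cq (A i) * (E i)ᵀ) = fun i => Ga Fin.rev (γ i) := by
    funext i
    exact (h i).form
  rw [h1]
  ext ⟨i, a⟩ ⟨j, b⟩
  unfold Ga
  rw [of_apply]
  by_cases hij : i = j
  · subst hij
    rw [blockDiagonal'_apply_eq, of_apply]
    by_cases hb : b = a.rev
    · rw [if_pos hb, if_pos (by rw [hb]; rfl)]
    · rw [if_neg hb, if_neg]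
      intro h2
      apply hb
      have h3 := (Sigma.mk.inj_iff.1 h2).2
      exact eq_of_heq h3
  · refine (blockDiagonal'_apply_ne (fun i => Ga Fin.rev (γ i)) a b hij).trans ?_
    rw [if_neg]
    intro h2
    exact hij (Sigma.mk.inj_iff.1 h2).1.symm

theorem bd_HD (h : ∀ i, HB (n i) (A i) (F i) (P i) (E i) (r i) (γ i)) (hA : ∀ i, (A i).det ≠ 0) :
    HD (Matrix.blockDiagonal' A) (Matrix.blockDiagonal' E) (Matrix.blockDiagonal' P) (hts n) rvs (fun x => r x.1 x.2)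
      (Us P F) where
  Edet := bd_det fun i => (h i).det
  Adet := bd_det hA
  hrev := by
    rintro ⟨i, a⟩
    unfold hts rvs
    simp only [Fin.val_rev]
    have := a.2
    omega
  conj := by
    rintro ⟨i, a⟩
    have h1 := (h i).conj a
    rw [bd_row]
    show _ = r i a • Matrix.blockDiagonal' E ⟨i, a.rev⟩
    rw [bd_row]
    funext ⟨j, b⟩
    by_cases hj : j = i
    · subst hj
      rw [em_same, Pi.smul_apply, em_same]
      exact congrFun h1 b
    · rw [em_ne hj, star_zero, Pi.smul_apply, em_ne hj, smul_zero]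
  skew := by
    rw [bd_form h]
    ext x y
    rw [Matrix.add_apply, diagonal_mul, mul_diagonal, Matrix.zero_apply]
    unfold Ga
    rw [of_apply]
    by_cases hxy : y = rvs x
    · rw [if_pos hxy, hxy]
      have h1 : hts n (rvs x) = -hts n x := by
        obtain ⟨i, a⟩ := x
        unfold hts rvs
        simp only [Fin.val_rev]
        have := a.2
        omega
      rw [h1]
      push_cast
      ring
    · rw [if_neg hxy]
      ring
  gen := by
    rintro ⟨i, a⟩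
    rw [bd_row]
    have ha := a.2
    have h1 := (h i).rat _ ((h i).mem a)
    have h2 := Submodule.mem_map_of_mem (f := eml (n := n) i) h1
    rw [Submodule.map_span] at h2
    refine Submodule.span_mono ?_ h2
    rintro _ ⟨_, ⟨u, rfl, hu⟩, rfl⟩
    refine ⟨em i u, ⟨i, n i - 1 - a, u, ?_, rfl, hu⟩, ?_⟩
    · unfold hts
      simp only
      omega
    · rw [cv_em, em_vm, eml_apply]
  fil := by
    rintro q _ ⟨i, p, u, rfl, rfl, hu⟩
    rw [cv_em, em_vm]
    have h1 := (h i).span p hu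
    have h2 := Submodule.mem_map_of_mem (f := eml (n := n) i) h1
    rw [Submodule.map_span] at h2
    refine Submodule.span_mono ?_ h2
    rintro _ ⟨_, ⟨a, ha, rfl⟩, rfl⟩
    refine ⟨⟨i, a⟩, ?_, ?_⟩
    · unfold hts
      simp only
      omega
    · rw [bd_row, eml_apply]

theorem bd_RD (h : ∀ i, HB (n i) (A i) (F i) (P i) (E i) (r i) (γ i)) {ε : Fin k → ℚ} (hA : ∀ i, (A i)ᵀ = ε i • A i)
    (hε : ∀ i, ε i = -1 ∨ (ε i = 1 ∧ Odd (n i))) :
    RD (Sigma.fst : IS n → Fin k) (hts n) rvs (fun x => γ x.1 x.2) (fun x => ((ε x.1 : ℚ) : ℂ)) where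
  rr := by
    rintro ⟨i, a⟩
    unfold rvs
    rw [Fin.rev_rev]
  rbl := fun _ => rfl
  hrev := by
    rintro ⟨i, a⟩
    unfold hts rvs
    simp only [Fin.val_rev]
    have := a.2
    omega
  hinj := by
    rintro ⟨i, a⟩ ⟨j, b⟩ h1 h2
    simp only at h1
    subst h1
    unfold hts at h2
    simp only at h2
    have h3 : a = b := Fin.ext (by omega)
    rw [h3]
  γ0 := fun x => (h x.1).γ0 x.2
  γr := by
    rintro ⟨i, a⟩
    have h1 := (h i).form
    have h2 := congrArg Matrix.transpose h1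
    have h3 : (E i * cq (A i) * (E i)ᵀ)ᵀ = ((ε i : ℚ) : ℂ) • (E i * cq (A i) * (E i)ᵀ) := by
      have h4 : (cq (A i))ᵀ = ((ε i : ℚ) : ℂ) • cq (A i) := by
        rw [← cq_smul, ← hA i]
        rfl
      rw [transpose_mul, transpose_mul, transpose_transpose, h4, Matrix.smul_mul, Matrix.mul_smul, Matrix.mul_assoc]
    rw [h3, h1] at h2
    have h4 := congrFun (congrFun h2 a) a.rev
    rw [Matrix.smul_apply, transpose_apply] at h4
    unfold Ga at h4
    rw [of_apply, of_apply, if_pos rfl, if_pos (Fin.rev_rev a).symm, smul_eq_mul] at h4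
    exact h4.symm
  εbl := by
    rintro ⟨i, a⟩ ⟨j, b⟩ h1
    simp only at h1
    subst h1
    rfl
  cases := by
    rintro ⟨i, a⟩
    rcases hε i with h1 | ⟨h1, m, hm⟩
    · left
      simp only [h1]
      norm_num
    · right
      refine ⟨by simp only [h1]; norm_num, ⟨i, ⟨m, by omega⟩⟩, rfl, ?_⟩
      unfold rvs
      congr 1
      apply Fin.ext
      rw [Fin.val_rev]
      simp only
      omega

theorem BS_bd (M : ∀ i, Matrix (Fin (n i)) (Fin (n i)) ℂ) : BS (Sigma.fst : IS n → Fin k) (Matrix.blockDiagonal' M) := by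
  rintro ⟨i, a⟩ ⟨j, b⟩ hij
  exact blockDiagonal'_apply_ne M a b hij

theorem bd_inv (h : ∀ i, (E i).det ≠ 0) : (Matrix.blockDiagonal' E)⁻¹ = Matrix.blockDiagonal' fun i => (E i)⁻¹ := by
  refine inv_eq_right_inv ?_
  rw [← blockDiagonal'_mul]
  have h1 : (fun i => E i * (E i)⁻¹) = fun i => (1 : Matrix (Fin (n i)) (Fin (n i)) ℂ) := by
    funext i
    exact mul_nonsing_inv _ (isUnit_iff_ne_zero.2 (h i))
  rw [h1]
  exact blockDiagonal'_one

/-- the Hodge operator: multiplication by `p` on `H^{p, n - 1 - p}` -/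
def IsHop (F : ∀ i, ℕ → Submodule ℂ (Fin (n i) → ℂ)) (Φ : Matrix (IS n) (IS n) ℂ) : Prop :=
  ∀ (i : Fin k) (p : ℕ), p < n i → ∀ v ∈ F i p, star v ∈ F i (n i - 1 - p) → em i v ᵥ* Φ = (p : ℂ) • em i v

/-- **The Lie algebra of the Mumford–Tate group of the sum contains the orthogonal and symplectic Lie algebras.** -/
theorem sum_generic (hn : ∀ i, 1 ≤ n i) {D BI : ∀ i, Matrix (Fin (n i)) (Fin (n i)) ℚ} {κ : Fin k → ℂ}
    {v : ∀ i, ℕ → Fin (n i) → ℂ} (hP : ∀ i, (P i).det ≠ 0)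
    (hD : ∀ i, (D i).det ≠ 0) (hA : ∀ i, (A i).det ≠ 0) (hκ : ∀ i, κ i ≠ 0)
    (hPA : ∀ i, P i * cq (A i) * (P i)ᵀ = κ i • cq (BI i))
    (hv : ∀ i (a : Fin (n i)), 2 * (a : ℕ) + 1 < n i → v i a = (cq (D i) * P i) a)
    (hF : ∀ i, Pol (n i) (A i) (Fb (n i) (v i) (A i))) {ε : Fin k → ℚ} (hAε : ∀ i, (A i)ᵀ = ε i • A i)
    (hε : ∀ i, ε i = -1 ∨ (ε i = 1 ∧ Odd (n i)))
    (hRel : Rel (Matrix.blockDiagonal' A) (Matrix.blockDiagonal' P) (GG (Sigma.fst : IS n → Fin k) (Matrix.blockDiagonal' A)))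
    {𝔪 : Submodule ℚ (Matrix (IS n) (IS n) ℚ)} (hbr : ∀ X ∈ 𝔪, ∀ Y ∈ 𝔪, X * Y - Y * X ∈ 𝔪)
    {Φ : Matrix (IS n) (IS n) ℂ} (hΦ : IsHop (fun i => Fb (n i) (v i) (A i)) Φ) (hΦm : Φ ∈ mC 𝔪)
    {X : ∀ i, Matrix (Fin (n i)) (Fin (n i)) ℚ} (hX : ∀ i, X i * A i + A i * (X i)ᵀ = 0) :
    Matrix.blockDiagonal' X ∈ 𝔪 := by
  choose E r γ hHB using fun i => exists_HB (hn i) (hP i) (hD i) (hA i) (hκ i) (hPA i) (hv i) (hF i)
  have hHD := bd_HD hHB hA
  have hRD := bd_RD hHB hAε hε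
  have hr0 : ∀ x : IS n, r x.1 x.2 ≠ 0 := fun x => (hHB x.1).r0 x.2
  -- the Hodge operator
  have e1 : ∀ x : IS n, Matrix.blockDiagonal' E x ᵥ* Φ = ((n x.1 - 1 - (x.2 : ℕ) : ℕ) : ℂ) • Matrix.blockDiagonal' E x := by
    rintro ⟨i, a⟩
    have ha := a.2
    rw [bd_row]
    refine hΦ i (n i - 1 - a) (by omega) _ ((hHB i).mem a) ?_
    have h1 : n i - 1 - (n i - 1 - (a : ℕ)) = a := by omega
    rw [h1]
    exact (hHB i).smem a
  have e2 : ∀ x : IS n, Matrix.blockDiagonal' E x ᵥ* Φ.map star = ((x.2 : ℕ) : ℂ) • Matrix.blockDiagonal' E x := by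
    intro x
    have h1 := hHD.conj (rvs x)
    rw [hRD.rr] at h1
    have h2 := vm_star (Matrix.blockDiagonal' E (rvs x)) Φ
    rw [h1, e1 (rvs x)] at h2
    have h3 : (fun y => star ((((n (rvs x).1 - 1 - ((rvs x).2 : ℕ) : ℕ) : ℂ) • Matrix.blockDiagonal' E (rvs x)) y)) =
        ((x.2 : ℕ) : ℂ) • (r (rvs x).1 (rvs x).2 • Matrix.blockDiagonal' E x) := by
      rw [← h1]
      funext y
      simp only [Pi.smul_apply, smul_eq_mul, star_mul']
      congr 1
      have h4 : n (rvs x).1 - 1 - ((rvs x).2 : ℕ) = (x.2 : ℕ) := by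
        obtain ⟨i, a⟩ := x
        unfold rvs
        simp only [Fin.val_rev]
        have := a.2
        omega
      rw [h4]
      simp
    rw [h3, smul_vecMul] at h2
    have h5 := congrArg (fun v => (r (rvs x).1 (rvs x).2)⁻¹ • v) h2
    simp only [smul_smul, inv_mul_cancel₀ (hr0 (rvs x)), one_smul] at h5
    rw [h5]
    congr 1
    rw [mul_comm, mul_assoc, mul_inv_cancel₀ (hr0 (rvs x)), mul_one]
  have hhop : hop (Matrix.blockDiagonal' E) (hts n) = Φ - Φ.map star := by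
    refine ext_rows hHD.unit fun x => ?_
    rw [hHD.row, vecMul_sub, e1, e2, ← sub_smul]
    congr 1
    obtain ⟨i, a⟩ := x
    have ha := a.2
    unfold hts
    simp only
    have h1 : ((n i - 1 - (a : ℕ) : ℕ) : ℂ) = (n i : ℂ) - 1 - (a : ℕ) := by
      rw [Nat.cast_sub (by omega), Nat.cast_sub (by omega)]
      simp
    rw [h1]
    push_cast
    ring
  have hh : hop (Matrix.blockDiagonal' E) (hts n) ∈ mC 𝔪 := by
    rw [hhop]
    exact Submodule.sub_mem _ hΦm (mC_star hΦm)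
  refine generic hHD hRD (BS_bd E) ?_ (bd_form hHB) hr0 hRel hbr hh ?_ ?_
  · rw [bd_inv fun i => (hHB i).det]
    exact BS_bd _
  · rw [cq_bd]
    exact BS_bd _
  · rw [blockDiagonal'_transpose, ← blockDiagonal'_mul, ← blockDiagonal'_mul, ← blockDiagonal'_add]
    have h1 : ((fun i => X i * A i) + fun i => A i * (X i)ᵀ) = 0 := by
      funext i
      exact hX i
    rw [h1]
    exact blockDiagonal'_zero

end Run7.h893.GH
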